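import Mathlib
import Pool.Agent.J4.H87.PP.Av
import Pool.Agent.J4.H87.PP.Pl
import Pool.Agent.J4.H87.PP.Tin
import Pool.Agent.J4.H87.PP.Sup
import Pool.Agent.J4.H87.PP.Cnt
import Pool.Agent.J4.H87.PP.Ar
import Pool.Agent.J4.H87.PP.Gr
import Pool.Agent.J4.H87.PP.Ker
import Pool.Agent.J4.H87.PP.Pb
import Pool.Agent.J4.H87.PP.Tr
set_option autoImplicit false

/-! Polynomial phases: the decomposition. -/

namespace Pool.Agent.J4.H87.PA

open Pool.Agent.J4.H87.PP
open MeasureTheory Set MvPolynomial Filter Topology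
open scoped ENNReal NNReal RealInnerProductSpace

theorem cl_par (k : ℕ) (a : Fin 2 → ℤ) : cl (k + 1) a ⊆ cl k (par a) := by
  intro x hx i
  obtain ⟨h1, h2⟩ := hx i
  have e1 : 2 * (a i / 2) ≤ a i := by omega
  have e2 : a i ≤ 2 * (a i / 2) + 1 := by omega
  have e1' : 2 * ((a i / 2 : ℤ) : ℝ) ≤ (a i : ℝ) := by exact_mod_cast e1
  have e2' : (a i : ℝ) ≤ 2 * ((a i / 2 : ℤ) : ℝ) + 1 := by exact_mod_cast e2
  have hp : (0 : ℝ) < 2 ^ k := by positivity
  have hp' : (2 : ℝ) ^ (k + 1) = 2 * 2 ^ k := by ring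
  rw [div_le_iff₀ (by positivity)] at h1
  rw [le_div_iff₀ (by positivity)] at h2
  rw [hp'] at h1 h2
  constructor
  · show ((a i / 2 : ℤ) : ℝ) / 2 ^ k ≤ x i
    rw [div_le_iff₀ hp]
    linarith
  · show x i ≤ (((a i / 2 : ℤ) : ℝ) + 1) / 2 ^ k
    rw [le_div_iff₀ hp]
    linarith

theorem good_mono {p : Pol} {k : ℕ} {a : Fin 2 → ℤ} (h : Good p k (par a)) : Good p (k + 1) a := by
  intro x hx i j
  refine (h x (cl_par k a hx) i j).trans ?_
  exact pow_le_pow_right₀ (by norm_num) (Nat.le_succ k)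

theorem good_ix {p : Pol} {k : ℕ} {x : E 2} (h : Good p k (ix k x)) : Good p (k + 1) (ix (k + 1) x) := by
  rw [← par_ix] at h
  exact good_mono h

theorem maxG_ix {p : Pol} {k : ℕ} {x : E 2} :
    MaxG p k (ix (k + 1) x) ↔ Good p (k + 1) (ix (k + 1) x) ∧ ¬ Good p k (ix k x) := by
  unfold MaxG
  rw [par_ix]

open Classical in
/-- the part of level `j` of the first kind -/
noncomputable def U0 (p : Pol) (g : E 2 → ℂ) (x : E 2) : ℂ :=
  if Good p 0 (ix 0 x) then av g 0 x else 0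

open Classical in
noncomputable def U1 (p : Pol) (g : E 2 → ℂ) (j : ℕ) (x : E 2) : ℂ :=
  if Good p (j + 1) (ix (j + 1) x) then av g (j + 1) x - av g j x else 0

open Classical in
noncomputable def R1 (p : Pol) (g : E 2 → ℂ) (k : ℕ) (x : E 2) : ℂ :=
  if MaxG p k (ix (k + 1) x) then av g k x else 0

open Classical in
noncomputable def W1 (p : Pol) (g : E 2 → ℂ) (K : ℕ) (x : E 2) : ℂ :=
  if Good p K (ix K x) then av g K x else 0

theorem decomp (p : Pol) (g : E 2 → ℂ) (K : ℕ) (x : E 2) :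
    W1 p g K x = U0 p g x + ∑ j ∈ Finset.range K, U1 p g j x + ∑ k ∈ Finset.range K, R1 p g k x := by
  induction K with
  | zero => simp [W1, U0]
  | succ K ih =>
    rw [Finset.sum_range_succ, Finset.sum_range_succ]
    have : W1 p g (K + 1) x = W1 p g K x + U1 p g K x + R1 p g K x := by
      unfold W1 U1 R1
      by_cases h1 : Good p K (ix K x)
      · have h2 := good_ix h1
        have h3 : ¬ MaxG p K (ix (K + 1) x) := by rw [maxG_ix]; tauto
        rw [if_pos h1, if_pos h2, if_pos h2, if_neg h3]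
        ring
      · by_cases h2 : Good p (K + 1) (ix (K + 1) x)
        · have h3 : MaxG p K (ix (K + 1) x) := by rw [maxG_ix]; tauto
          rw [if_neg h1, if_pos h2, if_pos h2, if_pos h3]
          ring
        · have h3 : ¬ MaxG p K (ix (K + 1) x) := by rw [maxG_ix]; tauto
          rw [if_neg h1, if_neg h2, if_neg h2, if_neg h3]
          ring
    rw [this, ih]
    ring

/-- squares of the box -/
theorem sq_SS {k : ℕ} {x : E 2} (hx : x ∈ SS) {z : E 2} (hz : z ∈ sq k (ix k x)) : z ∈ SS := by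
  intro i
  obtain ⟨h1, h2⟩ := hz i
  obtain ⟨h3, h4⟩ := hx i
  have hp : (0 : ℝ) < 2 ^ k := by positivity
  rw [div_le_iff₀ hp] at h1
  rw [lt_div_iff₀ hp] at h2
  have h5 : (-(2 ^ k : ℤ)) ≤ ⌊(2 : ℝ) ^ k * x i⌋ := by
    rw [Int.le_floor]
    push_cast
    nlinarith
  have h6 : ⌊(2 : ℝ) ^ k * x i⌋ < (2 ^ k : ℤ) := by
    rw [Int.floor_lt]
    push_cast
    nlinarith
  have h5' : (-(2 ^ k : ℝ)) ≤ (⌊(2 : ℝ) ^ k * x i⌋ : ℝ) := by exact_mod_cast h5
  have h6' : (⌊(2 : ℝ) ^ k * x i⌋ : ℝ) + 1 ≤ (2 ^ k : ℝ) := by exact_mod_cast h6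
  have e : ((ix k x i : ℤ) : ℝ) = (⌊(2 : ℝ) ^ k * x i⌋ : ℝ) := rfl
  rw [e] at h1 h2
  constructor
  · by_contra h
    push Not at h
    nlinarith
  · by_contra h
    push Not at h
    nlinarith

theorem mem_sq_ix (k : ℕ) (x : E 2) : x ∈ sq k (ix k x) := (ix_iff k _ x).2 rfl

/-- a square that contains a point of the box lies in it -/
theorem sq_SS' {k : ℕ} {x z : E 2} (hx : x ∉ SS) (hz : z ∈ sq k (ix k x)) : z ∉ SS := by
  intro h
  apply hx
  have h1 := (ix_iff k _ z).1 hz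
  refine sq_SS h (k := k) ?_
  rw [h1]
  exact mem_sq_ix k x

theorem av_zero {g : E 2 → ℂ} (hg : ∀ x, g x ≠ 0 → x ∈ SS) (k : ℕ) {x : E 2} (hx : x ∉ SS) :
    av g k x = 0 := by
  unfold av
  rw [setIntegral_eq_zero_of_forall_eq_zero, mul_zero]
  intro z hz
  by_contra h
  exact sq_SS' hx hz (hg z h)

theorem SS_meas : MeasurableSet SS := by
  have : SS = ⋂ i : Fin 2, {x : E 2 | -1 ≤ x i ∧ x i < 1} := by ext x; simp [SS]
  rw [this]
  refine MeasurableSet.iInter fun i => ?_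
  have h : Measurable fun x : E 2 => x i := by fun_prop
  exact (measurableSet_le measurable_const h).inter (measurableSet_lt h measurable_const)

theorem ball_SS {x : E 2} (hx : ‖x‖ < 1 / 2) : x ∈ SS := by
  intro i
  have h1 : ‖x i‖ ≤ ‖x‖ := PiLp.norm_apply_le x i
  rw [Real.norm_eq_abs] at h1
  have h2 := abs_le.1 (h1.trans hx.le)
  constructor <;> linarith [h2.1, h2.2]

/-- the second derivatives are bounded on the box -/
theorem bdd (p : Pol) : ∃ K : ℕ, ∀ k : ℕ, K ≤ k → ∀ x ∈ SS, Good p k (ix k x) := by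
  have hev : ∀ q : Pol, Continuous (ev q) := by
    intro q
    unfold ev
    exact (MvPolynomial.continuous_eval q).comp (by fun_prop)
  have hK : IsCompact (Metric.closedBall (0 : E 2) 4) := isCompact_closedBall _ _
  have hb : ∀ q : Pol, ∃ B : ℝ, ∀ x ∈ Metric.closedBall (0 : E 2) 4, |ev q x| ≤ B := by
    intro q
    obtain ⟨B, hB⟩ := hK.exists_bound_of_continuousOn (hev q).continuousOn
    exact ⟨B, fun x hx => hB x hx⟩
  have hb2 : ∃ B : ℝ, ∀ i j, ∀ x ∈ Metric.closedBall (0 : E 2) 4, |d2 p i j x| ≤ B := by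
    choose B hB using fun (i j : Fin 2) => hb (pderiv i (pderiv j p))
    refine ⟨∑ i, ∑ j, |B i j|, fun i j x hx => (hB i j x hx).trans ?_⟩
    calc B i j ≤ |B i j| := le_abs_self _
      _ ≤ ∑ j, |B i j| := Finset.single_le_sum (f := fun j => |B i j|) (fun _ _ => abs_nonneg _)
          (Finset.mem_univ j)
      _ ≤ ∑ i, ∑ j, |B i j| := Finset.single_le_sum (f := fun i => ∑ j, |B i j|)
          (fun _ _ => Finset.sum_nonneg fun _ _ => abs_nonneg _) (Finset.mem_univ i)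
  obtain ⟨B, hB⟩ := hb2
  obtain ⟨K, hK⟩ := pow_unbounded_of_one_lt B (by norm_num : (1 : ℝ) < 4)
  refine ⟨K, fun k hk x hx z hz i j => ?_⟩
  have hz2 : z ∈ Metric.closedBall (0 : E 2) 4 := by
    have hp : (1 : ℝ) ≤ 2 ^ k := one_le_pow₀ (by norm_num)
    have hp0 : (0 : ℝ) < 2 ^ k := by positivity
    have hi : ∀ i, |z i| ≤ 2 := by
      intro i
      obtain ⟨h1, h2⟩ := hz i
      obtain ⟨h3, h4⟩ := mem_sq_ix k x i
      obtain ⟨h5, h6⟩ := hx i
      have e : (((ix k x i : ℤ) : ℝ) + 1) / 2 ^ k = ((ix k x i : ℤ) : ℝ) / 2 ^ k + 1 / 2 ^ k := by ring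
      have e2 : 1 / (2 : ℝ) ^ k ≤ 1 := by rw [div_le_one hp0]; exact hp
      rw [e] at h2 h4
      rw [abs_le]
      constructor <;> linarith
    rw [mem_closedBall_zero_iff, EuclideanSpace.norm_eq, Fin.sum_univ_two]
    refine Real.sqrt_le_iff.2 ⟨by norm_num, ?_⟩
    rw [Real.norm_eq_abs, Real.norm_eq_abs]
    have := hi 0
    have := hi 1
    nlinarith [abs_nonneg (z 0), abs_nonneg (z 1)]
  refine (hB i j z hz2).trans (hK.le.trans ?_)
  exact pow_le_pow_right₀ (by norm_num) hk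

end Pool.Agent.J4.H87.PA
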