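import Mathlib
import Pool.Agent.J4.H87.PA.Asm1
set_option autoImplicit false

/-! Polynomial phases: the estimates for a fixed polynomial. -/

namespace Pool.Agent.J4.H87.PA

open Pool.Agent.J4.H87.PP
open MeasureTheory Set MvPolynomial Filter Topology
open scoped ENNReal NNReal RealInnerProductSpace

theorem ev_cont (q : Pol) : Continuous (ev q) := by
  unfold ev
  exact (MvPolynomial.continuous_eval q).comp (by fun_prop)

theorem ex_cont : Continuous ex := by unfold ex; fun_prop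

theorem ex_norm (r : ℝ) : ‖ex r‖ = 1 := Complex.norm_exp_ofReal_mul_I r

/-- bounded functions on the box -/
structure Bs (M : ℝ) (f : E 2 → ℂ) : Prop where
  m : Measurable f
  b : ∀ x, ‖f x‖ ≤ M
  z : ∀ x, x ∉ SS → f x = 0

theorem SS_fin : volume SS ≠ ∞ := by
  have h : SS ⊆ Metric.closedBall (0 : E 2) 4 := by
    intro x hx
    rw [mem_closedBall_zero_iff, EuclideanSpace.norm_eq, Fin.sum_univ_two]
    refine Real.sqrt_le_iff.2 ⟨by norm_num, ?_⟩
    rw [Real.norm_eq_abs, Real.norm_eq_abs, sq_abs, sq_abs]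
    have h0 := hx 0
    have h1 := hx 1
    nlinarith [h0.1, h0.2, h1.1, h1.2]
  exact ((measure_mono h).trans_lt measure_closedBall_lt_top).ne

theorem Bs.ind {M : ℝ} {f : E 2 → ℂ} (hf : Bs M f) : f = SS.indicator f := by
  funext x
  by_cases hx : x ∈ SS
  · rw [indicator_of_mem hx]
  · rw [indicator_of_notMem hx, hf.z x hx]

theorem Bs.memLp {M : ℝ} {f : E 2 → ℂ} (hf : Bs M f) (p : ℝ≥0∞) : MemLp f p volume := by
  rw [hf.ind, memLp_indicator_iff_restrict SS_meas]
  have : IsFiniteMeasure (volume.restrict SS) := ⟨by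
    rw [Measure.restrict_apply_univ]; exact SS_fin.lt_top⟩
  exact MemLp.of_bound hf.m.aestronglyMeasurable M (Eventually.of_forall hf.b)

theorem Bs.int {M : ℝ} {f : E 2 → ℂ} (hf : Bs M f) : Integrable f :=
  memLp_one_iff_integrable.1 (hf.memLp 1)

/-- `e^{ip} f` -/
noncomputable def wv (p : Pol) (f : E 2 → ℂ) (x : E 2) : ℂ := ex (ev p x) * f x

theorem Bs.wv {M : ℝ} {f : E 2 → ℂ} (hf : Bs M f) (p : Pol) : Bs M (wv p f) := by
  refine ⟨?_, fun x => ?_, fun x hx => ?_⟩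
  · exact (ex_cont.comp (ev_cont p)).measurable.mul hf.m
  · unfold PA.wv
    rw [norm_mul, ex_norm, one_mul]
    exact hf.b x
  · unfold PA.wv
    rw [hf.z x hx, mul_zero]

theorem ch_int {f : E 2 → ℂ} (hf : Integrable f) (y : E 2) :
    Integrable fun x => ex (-⟪x, y⟫) * f x := by
  refine hf.bdd_mul (c := 1) ?_ (Eventually.of_forall fun x => (ex_norm _).le)
  exact (ex_cont.comp (by fun_prop)).aestronglyMeasurable

theorem FF_add {f g : E 2 → ℂ} (hf : Integrable f) (hg : Integrable g) (y : E 2) :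
    FF (fun x => f x + g x) y = FF f y + FF g y := by
  unfold FF
  simp only [mul_add]
  exact integral_add (ch_int hf y) (ch_int hg y)

theorem FF_sum {ι : Type} (F : Finset ι) {f : ι → E 2 → ℂ} (hf : ∀ i ∈ F, Integrable (f i)) (y : E 2) :
    FF (fun x => ∑ i ∈ F, f i x) y = ∑ i ∈ F, FF (f i) y := by
  unfold FF
  simp only [Finset.mul_sum]
  exact integral_finsetSum F fun i hi => ch_int (hf i hi) y

theorem FF_le (f : E 2 → ℂ) (y : E 2) : ‖FF f y‖ₑ ≤ ∫⁻ x, ‖f x‖ₑ := by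
  unfold FF
  refine (enorm_integral_le_lintegral_enorm _).trans (le_of_eq ?_)
  refine lintegral_congr fun x => ?_
  rw [enorm_mul, ← ofReal_norm (ex _), ex_norm, ENNReal.ofReal_one, one_mul]

theorem FF_sub {f g : E 2 → ℂ} (hf : Integrable f) (hg : Integrable g) (y : E 2) :
    FF f y - FF g y = FF (fun x => f x - g x) y := by
  unfold FF
  rw [← integral_sub (ch_int hf y) (ch_int hg y)]
  refine integral_congr_ae (Eventually.of_forall fun x => ?_)
  simp only
  ring

theorem wv_enorm (p : Pol) (f : E 2 → ℂ) (x : E 2) : ‖wv p f x‖ₑ = ‖f x‖ₑ := by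
  unfold wv
  rw [enorm_mul, ← ofReal_norm (ex _), ex_norm, ENNReal.ofReal_one, one_mul]

/-! measurability -/

theorem ix_meas (k : ℕ) : Measurable (ix k) := by
  refine measurable_pi_lambda _ fun i => ?_
  unfold ix
  exact Int.measurable_floor.comp (by fun_prop)

theorem ix_set (k : ℕ) (Q : (Fin 2 → ℤ) → Prop) : MeasurableSet {x : E 2 | Q (ix k x)} :=
  ix_meas k (t := {a | Q a}) (to_countable _).measurableSet

structure Gd (g : E 2 → ℂ) : Prop where
  m : Measurable g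
  b : ∀ x, ‖g x‖ ≤ 1
  s : ∀ x, g x ≠ 0 → ‖x‖ < 1 / 2

theorem Gd.bs {g : E 2 → ℂ} (hg : Gd g) : Bs 1 g :=
  ⟨hg.m, hg.b, fun x hx => by
    by_contra h
    exact hx (ball_SS (hg.s x h))⟩

theorem Gd.av {g : E 2 → ℂ} (hg : Gd g) (k : ℕ) : Bs 1 (av g k) :=
  ⟨av_meas g k, av_le g hg.bs.int hg.b k, fun x hx => av_zero (fun z hz => ball_SS (hg.s z hz)) k hx⟩

theorem bs_ite {M : ℝ} (hM : 0 ≤ M) {f : E 2 → ℂ} (hf : Bs M f) {Q : E 2 → Prop} [DecidablePred Q]
    (hQ : MeasurableSet {x | Q x}) : Bs M (fun x => if Q x then f x else 0) := by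
  refine ⟨Measurable.ite hQ hf.m measurable_const, fun x => ?_, fun x hx => ?_⟩
  · split_ifs
    · exact hf.b x
    · rw [norm_zero]; exact hM
  · split_ifs
    · exact hf.z x hx
    · rfl

theorem U0_bs {g : E 2 → ℂ} (hg : Gd g) (p : Pol) : Bs 1 (U0 p g) := by
  classical
  exact bs_ite (by norm_num) (hg.av 0) (ix_set 0 (fun a => Good p 0 a))

theorem W1_bs {g : E 2 → ℂ} (hg : Gd g) (p : Pol) (K : ℕ) : Bs 1 (W1 p g K) := by
  classical
  exact bs_ite (by norm_num) (hg.av K) (ix_set K (fun a => Good p K a))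

theorem R1_bs {g : E 2 → ℂ} (hg : Gd g) (p : Pol) (k : ℕ) : Bs 1 (R1 p g k) := by
  classical
  exact bs_ite (by norm_num) (hg.av k) (ix_set (k + 1) (fun a => MaxG p k a))

theorem dif_bs {g : E 2 → ℂ} (hg : Gd g) (j : ℕ) : Bs 2 (fun x => av g (j + 1) x - av g j x) := by
  refine ⟨(hg.av (j + 1)).m.sub (hg.av j).m, fun x => ?_, fun x hx => ?_⟩
  · refine (norm_sub_le _ _).trans ?_
    linarith [(hg.av (j + 1)).b x, (hg.av j).b x]
  · rw [(hg.av (j + 1)).z x hx, (hg.av j).z x hx, sub_zero]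

theorem U1_bs {g : E 2 → ℂ} (hg : Gd g) (p : Pol) (j : ℕ) : Bs 2 (U1 p g j) := by
  classical
  exact bs_ite (by norm_num) (dif_bs hg j) (ix_set (j + 1) (fun a => Good p (j + 1) a))

/-- the value of the average on the child square `a` of level `k + 1` -/
noncomputable def ha (g : E 2 → ℂ) (k : ℕ) (a : Fin 2 → ℤ) : ℂ := (4 : ℂ) ^ k * ∫ z in sq k (par a), g z

theorem ha_eq (g : E 2 → ℂ) (k : ℕ) (x : E 2) : ha g k (ix (k + 1) x) = av g k x := by
  unfold ha av
  rw [par_ix]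

theorem ha_le {g : E 2 → ℂ} (hg : Gd g) (k : ℕ) (a : Fin 2 → ℤ) : ‖ha g k a‖ ≤ 1 := by
  have h1 : co (k + 1) a ∈ sq (k + 1) a := by
    intro i
    have hp : (0 : ℝ) < 2 ^ (k + 1) := by positivity
    refine ⟨le_rfl, ?_⟩
    show (a i : ℝ) / 2 ^ (k + 1) < _
    exact (div_lt_div_iff_of_pos_right hp).2 (by linarith)
  rw [← (ix_iff (k + 1) a _).1 h1, ha_eq]
  exact (hg.av k).b _

/-- the part of the second kind, level `k`, class `l` -/
noncomputable def R2 (p : Pol) (g : E 2 → ℂ) (k l : ℕ) (x : E 2) : ℂ :=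
  ∑ a ∈ T p k l, (sq (k + 1) a).indicator (fun _ => ha g k a) x

theorem sq_meas (k : ℕ) (a : Fin 2 → ℤ) : MeasurableSet (sq k a) := by
  have : sq k a = {x | ix k x = a} := by
    ext x
    exact ix_iff k a x
  rw [this]
  exact ix_set k (fun b => b = a)

theorem R2_eq (p : Pol) (g : E 2 → ℂ) (k l : ℕ) (x : E 2) [Decidable (ix (k + 1) x ∈ T p k l)] :
    R2 p g k l x = if ix (k + 1) x ∈ T p k l then av g k x else 0 := by
  unfold R2
  split_ifs with h
  · rw [Finset.sum_eq_single_of_mem _ h]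
    · rw [indicator_of_mem (mem_sq_ix (k + 1) x), ha_eq]
    · intro b _ hb
      rw [indicator_of_notMem]
      intro h2
      exact hb ((ix_iff (k + 1) b x).1 h2).symm
  · refine Finset.sum_eq_zero fun b hb => ?_
    rw [indicator_of_notMem]
    intro h2
    rw [← (ix_iff (k + 1) b x).1 h2] at hb
    exact h hb

theorem lev_le {p : Pol} {k : ℕ} {a : Fin 2 → ℤ} (h : Good p (k + 1) a) : lev p k a ≤ 2 * k + 3 := by
  unfold lev
  refine Nat.sInf_le ?_
  intro x hx
  have hg := h x hx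
  have e : ev (Jp p) x = d2 p 0 0 x * d2 p 1 1 x - d2 p 0 1 x * d2 p 1 0 x := by
    unfold Jp d2 ev
    simp only [map_sub, map_mul]
  rw [e]
  have h1 := abs_mul (d2 p 0 0 x) (d2 p 1 1 x)
  have h2 := abs_mul (d2 p 0 1 x) (d2 p 1 0 x)
  have h3 : |d2 p 0 0 x| * |d2 p 1 1 x| ≤ 4 ^ (k + 1) * 4 ^ (k + 1) :=
    mul_le_mul (hg 0 0) (hg 1 1) (abs_nonneg _) (by positivity)
  have h4 : |d2 p 0 1 x| * |d2 p 1 0 x| ≤ 4 ^ (k + 1) * 4 ^ (k + 1) :=
    mul_le_mul (hg 0 1) (hg 1 0) (abs_nonneg _) (by positivity)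
  have h5 : (2 : ℝ) ^ (2 * k + 3) = 2 * 4 ^ (k + 1) := by
    rw [show 2 * k + 3 = 1 + 2 * (k + 1) by ring, pow_add, pow_mul]
    norm_num
  rw [h5]
  have h6 := abs_sub (d2 p 0 0 x * d2 p 1 1 x) (d2 p 0 1 x * d2 p 1 0 x)
  nlinarith

theorem ix_box {k : ℕ} {x : E 2} (hx : x ∈ SS) :
    ix k x ∈ Fintype.piFinset fun _ : Fin 2 => Finset.Ico (-2 ^ k : ℤ) (2 ^ k) := by
  rw [Fintype.mem_piFinset]
  intro i
  obtain ⟨h3, h4⟩ := hx i
  have hp : (0 : ℝ) < 2 ^ k := by positivity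
  rw [Finset.mem_Ico]
  constructor
  · show _ ≤ ⌊(2 : ℝ) ^ k * x i⌋
    rw [Int.le_floor]
    push_cast
    nlinarith
  · show ⌊(2 : ℝ) ^ k * x i⌋ < _
    rw [Int.floor_lt]
    push_cast
    nlinarith

theorem box_SS {k : ℕ} {x : E 2}
    (h : ix k x ∈ Fintype.piFinset fun _ : Fin 2 => Finset.Ico (-2 ^ k : ℤ) (2 ^ k)) : x ∈ SS := by
  intro i
  have h1 := Finset.mem_Ico.1 (Fintype.mem_piFinset.1 h i)
  have hp : (0 : ℝ) < 2 ^ k := by positivity
  have h2 : (-2 ^ k : ℤ) ≤ ⌊(2 : ℝ) ^ k * x i⌋ := h1.1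
  have h3 : ⌊(2 : ℝ) ^ k * x i⌋ < (2 ^ k : ℤ) := h1.2
  rw [Int.le_floor] at h2
  rw [Int.floor_lt] at h3
  push_cast at h2 h3
  constructor
  · by_contra h
    push Not at h
    nlinarith
  · by_contra h
    push Not at h
    nlinarith

theorem R1_eq {g : E 2 → ℂ} (hg : Gd g) (p : Pol) (k : ℕ) (x : E 2) :
    R1 p g k x = ∑ l ∈ Finset.range (2 * k + 4), R2 p g k l x := by
  classical
  simp only [R2_eq]
  by_cases hx : x ∈ SS
  · unfold R1
    by_cases hM : MaxG p k (ix (k + 1) x)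
    · rw [if_pos hM, Finset.sum_eq_single_of_mem (lev p k (ix (k + 1) x))]
      · rw [if_pos]
        unfold T
        rw [Finset.mem_filter]
        exact ⟨ix_box hx, hM, rfl⟩
      · rw [Finset.mem_range]
        have := lev_le hM.1
        omega
      · intro l _ hl
        rw [if_neg]
        unfold T
        rw [Finset.mem_filter]
        rintro ⟨_, _, h⟩
        exact hl h.symm
    · rw [if_neg hM]
      symm
      refine Finset.sum_eq_zero fun l _ => ?_
      rw [if_neg]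
      unfold T
      rw [Finset.mem_filter]
      rintro ⟨_, h, _⟩
      exact hM h
  · rw [(R1_bs hg p k).z x hx]
    symm
    refine Finset.sum_eq_zero fun l _ => ?_
    rw [if_neg]
    unfold T
    rw [Finset.mem_filter]
    rintro ⟨h, _, _⟩
    exact hx (box_SS h)

theorem R2_bs {g : E 2 → ℂ} (hg : Gd g) (p : Pol) (k l : ℕ) : Bs 1 (R2 p g k l) := by
  classical
  have h : R2 p g k l = fun x => if ix (k + 1) x ∈ T p k l then av g k x else 0 :=
    funext fun x => R2_eq p g k l x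
  rw [h]
  exact bs_ite (by norm_num) (hg.av k) (ix_set (k + 1) (fun a => a ∈ T p k l))

theorem R2_sq {g : E 2 → ℂ} (hg : Gd g) (p : Pol) (k l : ℕ) :
    ∫⁻ x, ‖wv p (R2 p g k l) x‖ₑ ^ 2 ≤ volume (A p k l) := by
  classical
  have hA : MeasurableSet (A p k l) := by
    unfold A
    exact Finset.measurableSet_biUnion _ fun a _ => sq_meas _ _
  rw [← lintegral_indicator_one hA]
  refine lintegral_mono fun x => ?_
  rw [wv_enorm, R2_eq]
  split_ifs with h
  · have h2 : x ∈ A p k l := by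
      unfold A
      rw [mem_iUnion₂]
      exact ⟨_, h, mem_sq_ix _ _⟩
    rw [indicator_of_mem h2, Pi.one_apply]
    have h3 : ‖av g k x‖ₑ ≤ 1 := by
      rw [← ofReal_norm]
      exact ENNReal.ofReal_le_one.2 ((hg.av k).b x)
    exact pow_le_one₀ (by simp) h3
  · simp

theorem R2_FF {g : E 2 → ℂ} (hg : Gd g) (p : Pol) (k l : ℕ) (y : E 2) :
    FF (wv p (R2 p g k l)) y =
      ∑ a ∈ T p k l, ha g k a * ∫ x in sq (k + 1) a, ex (ev p x - ⟪x, y⟫) := by
  have h1 : wv p (R2 p g k l) = fun x => ∑ a ∈ T p k l,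
      (sq (k + 1) a).indicator (fun z => ex (ev p z) * ha g k a) x := by
    funext x
    unfold wv R2
    rw [Finset.mul_sum]
    refine Finset.sum_congr rfl fun a _ => ?_
    by_cases hx : x ∈ sq (k + 1) a
    · rw [indicator_of_mem hx, indicator_of_mem hx]
    · rw [indicator_of_notMem hx, indicator_of_notMem hx, mul_zero]
  have hfin : ∀ a : Fin 2 → ℤ, volume (sq (k + 1) a) ≠ ∞ := by
    intro a
    rw [sq_vol]
    exact ENNReal.ofReal_ne_top
  rw [h1, FF_sum]
  · refine Finset.sum_congr rfl fun a _ => ?_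
    unfold FF
    have h2 : (fun x => ex (-⟪x, y⟫) * (sq (k + 1) a).indicator (fun z => ex (ev p z) * ha g k a) x) =
        (sq (k + 1) a).indicator fun x => ha g k a * ex (ev p x - ⟪x, y⟫) := by
      funext x
      by_cases hx : x ∈ sq (k + 1) a
      · rw [indicator_of_mem hx, indicator_of_mem hx]
        have : ex (ev p x - ⟪x, y⟫) = ex (ev p x) * ex (-⟪x, y⟫) := by
          unfold ex
          rw [← Complex.exp_add]
          congr 1
          push_cast
          ring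
        rw [this]
        ring
      · rw [indicator_of_notMem hx, indicator_of_notMem hx, mul_zero]
    rw [h2, integral_indicator (sq_meas _ _), integral_const_mul]
  · intro a _
    rw [integrable_indicator_iff (sq_meas _ _)]
    have : IsFiniteMeasure (volume.restrict (sq (k + 1) a)) := ⟨by
      rw [Measure.restrict_apply_univ]; exact (hfin a).lt_top⟩
    refine Integrable.mul_const ?_ _
    refine Integrable.of_bound (C := 1) ?_ (Eventually.of_forall fun x => (ex_norm _).le)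
    exact (ex_cont.comp (ev_cont p)).aestronglyMeasurable

/-- the bound of the parts of the second kind -/
theorem R2_int (n : ℕ) (δ q : ℝ) (hδ : 0 < δ) (hδ1 : δ < 1) (hq : 2 ≤ q) : ∃ C c : ℝ, 0 < C ∧ 0 < c ∧ c ≤ 1 ∧
    ∀ p : Pol, p.totalDegree ≤ n → ∀ (g : E 2 → ℂ), Gd g → ∀ k l : ℕ,
      ∫⁻ y, ‖FF (wv p (R2 p g k l)) y‖ₑ ^ q ≤
        ENNReal.ofReal ((2 * Real.pi) ^ 2) * ENNReal.ofReal (C * zz c k l ^ (1 - δ)) ^ (q - 2) *
          volume (A p k l) := by
  obtain ⟨C, c, hC, hc, hc1, H⟩ := PP.sup ker n (cnt_of ar half gr n) δ hδ hδ1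
  refine ⟨C, c, hC, hc, hc1, fun p hp g hg k l => ?_⟩
  have hb := (R2_bs hg p k l).wv p
  refine (fixed q hq _ hb.int (hb.memLp 2) (C * zz c k l ^ (1 - δ)) ?_).trans ?_
  · intro y
    rw [R2_FF hg]
    exact H p hp k l _ (ha_le hg k) y
  · gcongr
    exact R2_sq hg p k l

end Pool.Agent.J4.H87.PA
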