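import Mathlib
import Pool.Agent.J4.H87.PA.Asm2
set_option autoImplicit false

/-! Polynomial phases: sums. -/

namespace Pool.Agent.J4.H87.PA

open Pool.Agent.J4.H87.PP
open MeasureTheory Set MvPolynomial Filter Topology
open scoped ENNReal NNReal RealInnerProductSpace

theorem wsum {ι : Type} (q : ℝ) (hq : 0 < q) (a v : ι → ℝ≥0∞) (h0 : ∀ i, v i ≠ 0) (h1 : ∀ i, v i ≠ ∞) :
    (∑' i, a i) ^ q ≤ (∑' i, v i) ^ q * ∑' i, (v i) ^ (-q) * a i ^ q := by
  set Z : ℝ≥0∞ := ∑' i, (v i) ^ (-q) * a i ^ q with hZ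
  have h2 : ∀ i, a i ≤ Z ^ (1 / q) * v i := by
    intro i
    have h3 : (v i) ^ (-q) * a i ^ q ≤ Z := ENNReal.le_tsum i
    have h4 : ((v i)⁻¹ * a i) ^ q ≤ Z := by
      rw [ENNReal.mul_rpow_of_nonneg _ _ hq.le, ENNReal.inv_rpow, ← ENNReal.rpow_neg]
      exact h3
    have h5 : (v i)⁻¹ * a i ≤ Z ^ (1 / q) := by
      calc (v i)⁻¹ * a i = (((v i)⁻¹ * a i) ^ q) ^ (1 / q) := by
            rw [← ENNReal.rpow_mul, mul_one_div_cancel hq.ne', ENNReal.rpow_one]
        _ ≤ Z ^ (1 / q) := ENNReal.rpow_le_rpow h4 (by positivity)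
    calc a i = v i * ((v i)⁻¹ * a i) := by
          rw [← mul_assoc, ENNReal.mul_inv_cancel (h0 i) (h1 i), one_mul]
      _ ≤ v i * Z ^ (1 / q) := by gcongr
      _ = Z ^ (1 / q) * v i := mul_comm _ _
  calc (∑' i, a i) ^ q ≤ (∑' i, Z ^ (1 / q) * v i) ^ q :=
        ENNReal.rpow_le_rpow (ENNReal.tsum_le_tsum h2) hq.le
    _ = (∑' i, v i) ^ q * Z := by
        rw [ENNReal.tsum_mul_left, ENNReal.mul_rpow_of_nonneg _ _ hq.le, ← ENNReal.rpow_mul,
          one_div_mul_cancel hq.ne', ENNReal.rpow_one, mul_comm]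

theorem geo (κ : ℝ) (hκ : 0 < κ) : ∑' j : ℕ, ENNReal.ofReal ((2 : ℝ) ^ (-(κ * j))) ≠ ∞ := by
  have h : ∀ j : ℕ, ENNReal.ofReal ((2 : ℝ) ^ (-(κ * j))) = (ENNReal.ofReal ((2 : ℝ) ^ (-κ))) ^ j := by
    intro j
    rw [← ENNReal.ofReal_pow (by positivity), ← Real.rpow_natCast, ← Real.rpow_mul (by norm_num)]
    congr 2
    ring
  simp only [h]
  rw [ENNReal.tsum_geometric]
  refine ENNReal.inv_ne_top.2 ?_
  have h2 : ENNReal.ofReal ((2 : ℝ) ^ (-κ)) < 1 := by
    rw [ENNReal.ofReal_lt_one]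
    exact Real.rpow_lt_one_of_one_lt_of_neg (by norm_num) (by linarith)
  exact (tsub_pos_of_lt h2).ne'

theorem FF_cont {f : E 2 → ℂ} (hf : Integrable f) : Continuous (FF f) := by
  unfold FF
  refine continuous_of_dominated (F := fun y x => ex (-⟪x, y⟫) * f x) (bound := fun x => ‖f x‖) ?_ ?_ hf.norm ?_
  · exact fun y => (ch_int hf y).aestronglyMeasurable
  · refine fun y => Eventually.of_forall fun x => ?_
    rw [norm_mul, ex_norm, one_mul]
  · refine Eventually.of_forall fun x => ?_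
    exact (ex_cont.comp (by fun_prop)).mul continuous_const

theorem three (q : ℝ) (hq : 0 < q) (a b c : ℝ≥0∞) : (a + b + c) ^ q ≤ 3 ^ q * (a ^ q + b ^ q + c ^ q) := by
  have h : a + b + c ≤ 3 * max (max a b) c := by
    have h1 : a ≤ max (max a b) c := (le_max_left _ _).trans (le_max_left _ _)
    have h2 : b ≤ max (max a b) c := (le_max_right _ _).trans (le_max_left _ _)
    have h3 : c ≤ max (max a b) c := le_max_right _ _
    calc a + b + c ≤ max (max a b) c + max (max a b) c + max (max a b) c := by gcongr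
      _ = 3 * max (max a b) c := by ring
  refine (ENNReal.rpow_le_rpow h hq.le).trans ?_
  rw [ENNReal.mul_rpow_of_nonneg _ _ hq.le]
  gcongr
  rcases max_choice (max a b) c with h1 | h1
  · rw [h1]
    rcases max_choice a b with h2 | h2
    · rw [h2]; exact le_add_right (le_add_right le_rfl)
    · rw [h2]; exact le_add_right (le_add_left le_rfl)
  · rw [h1]; exact le_add_left le_rfl

/-! the limit -/

theorem W1_eq {g : E 2 → ℂ} (hg : Gd g) (p : Pol) : ∃ K0 : ℕ, ∀ K, K0 ≤ K → W1 p g K = av g K := by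
  obtain ⟨K0, h⟩ := bdd p
  refine ⟨K0, fun K hK => funext fun x => ?_⟩
  unfold W1
  by_cases hx : x ∈ SS
  · rw [if_pos (h K hK x hx)]
  · rw [(hg.av K).z x hx, ite_self]

theorem wv_add (p : Pol) (f g : E 2 → ℂ) : wv p (fun x => f x + g x) = fun x => wv p f x + wv p g x := by
  funext x
  unfold wv
  ring

theorem wv_sum {ι : Type} (p : Pol) (F : Finset ι) (f : ι → E 2 → ℂ) :
    wv p (fun x => ∑ i ∈ F, f i x) = fun x => ∑ i ∈ F, wv p (f i) x := by
  funext x
  unfold wv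
  rw [Finset.mul_sum]

theorem point {g : E 2 → ℂ} (hg : Gd g) {V s : ℝ} (hs : 0 < s) (hs1 : s ≤ 1) (hV : 0 ≤ V)
    (hm : ∀ v : E 2, ∫⁻ x, ‖g (x + v) - g x‖ₑ ≤ ENNReal.ofReal (V * ‖v‖ ^ s)) (p : Pol) (y : E 2) :
    ‖FF (wv p g) y‖ₑ ≤ ‖FF (wv p (U0 p g)) y‖ₑ + ∑' j, ‖FF (wv p (U1 p g j)) y‖ₑ +
      ∑' kl : ℕ × ℕ, ‖FF (wv p (R2 p g kl.1 kl.2)) y‖ₑ := by
  set B : ℝ≥0∞ := ‖FF (wv p (U0 p g)) y‖ₑ + ∑' j, ‖FF (wv p (U1 p g j)) y‖ₑ +
      ∑' kl : ℕ × ℕ, ‖FF (wv p (R2 p g kl.1 kl.2)) y‖ₑ with hB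
  have hW : ∀ K, ‖FF (wv p (W1 p g K)) y‖ₑ ≤ B := by
    intro K
    have h1 : W1 p g K = fun x => (U0 p g x + ∑ j ∈ Finset.range K, U1 p g j x) +
        ∑ k ∈ Finset.range K, R1 p g k x := funext fun x => decomp p g K x
    have i0 : Integrable (wv p (U0 p g)) := ((U0_bs hg p).wv p).int
    have i1 : ∀ j ∈ Finset.range K, Integrable (wv p (U1 p g j)) := fun j _ => ((U1_bs hg p j).wv p).int
    have i2 : ∀ k ∈ Finset.range K, Integrable (wv p (R1 p g k)) := fun k _ => ((R1_bs hg p k).wv p).int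
    rw [h1, wv_add, FF_add, wv_add, FF_add, wv_sum, FF_sum _ i1, wv_sum, FF_sum _ i2]
    · refine (enorm_add_le _ _).trans (add_le_add ((enorm_add_le _ _).trans (add_le_add le_rfl ?_)) ?_)
      · exact (enorm_sum_le _ _).trans (ENNReal.sum_le_tsum _)
      · refine (enorm_sum_le _ _).trans ?_
        rw [ENNReal.tsum_prod (f := fun k l => ‖FF (wv p (R2 p g k l)) y‖ₑ)]
        refine le_trans ?_ (ENNReal.sum_le_tsum (Finset.range K))
        refine Finset.sum_le_sum fun k _ => ?_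
        have h2 : R1 p g k = fun x => ∑ l ∈ Finset.range (2 * k + 4), R2 p g k l x :=
          funext fun x => R1_eq hg p k x
        rw [h2, wv_sum, FF_sum _ fun l _ => ((R2_bs hg p k l).wv p).int]
        exact (enorm_sum_le _ _).trans (ENNReal.sum_le_tsum _)
    · exact i0
    · rw [wv_sum]
      exact integrable_finsetSum _ i1
    · rw [wv_add, wv_sum]
      exact i0.add (integrable_finsetSum _ i1)
    · rw [wv_sum]
      exact integrable_finsetSum _ i2
  obtain ⟨K0, hK0⟩ := W1_eq hg p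
  have hlim : ∀ K, K0 ≤ K → ‖FF (wv p g) y‖ₑ ≤ B + ENNReal.ofReal (8 * V * (2 : ℝ) ^ (-(s * K))) := by
    intro K hK
    have h1 : FF (wv p g) y = FF (wv p (W1 p g K)) y + (FF (wv p g) y - FF (wv p (W1 p g K)) y) := by ring
    rw [h1]
    refine (enorm_add_le _ _).trans (add_le_add (hW K) ?_)
    rw [hK0 K hK, FF_sub (hg.bs.wv p).int (((hg.av K)).wv p).int]
    refine (FF_le _ y).trans ?_
    refine le_trans (le_of_eq ?_) (av_mod g hg.bs.int V s hs.le hs1 hV hm K)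
    refine lintegral_congr fun x => ?_
    have h2 : wv p g x - wv p (av g K) x = wv p (fun x => g x - av g K x) x := by
      unfold wv
      ring
    rw [h2, wv_enorm, ← enorm_neg]
    congr 1
    ring
  have ht : Tendsto (fun K : ℕ => B + ENNReal.ofReal (8 * V * (2 : ℝ) ^ (-(s * K)))) atTop (𝓝 (B + 0)) := by
    refine Tendsto.const_add B ?_
    rw [← ENNReal.ofReal_zero]
    refine ENNReal.tendsto_ofReal ?_
    have h3 : Tendsto (fun K : ℕ => (2 : ℝ) ^ (-(s * K))) atTop (𝓝 0) := by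
      have h4 : ∀ K : ℕ, (2 : ℝ) ^ (-(s * K)) = ((2 : ℝ) ^ (-s)) ^ K := by
        intro K
        rw [← Real.rpow_natCast, ← Real.rpow_mul (by norm_num)]
        congr 1
        ring
      simp only [h4]
      refine tendsto_pow_atTop_nhds_zero_of_lt_one (by positivity) ?_
      exact Real.rpow_lt_one_of_one_lt_of_neg (by norm_num) (by linarith)
    simpa using h3.const_mul (8 * V)
  rw [add_zero] at ht
  refine ge_of_tendsto ht ?_
  filter_upwards [eventually_ge_atTop K0] with K hK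
  exact hlim K hK

end Pool.Agent.J4.H87.PA
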