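import Mathlib
import Pool.Agent.J4.H87.PA.Asm3
set_option autoImplicit false

/-! Polynomial phases: integration over the time. -/

namespace Pool.Agent.J4.H87.PA

open Pool.Agent.J4.H87.PP
open MeasureTheory Set MvPolynomial Filter Topology
open scoped ENNReal NNReal RealInnerProductSpace

theorem ph_deg {P : Pol} {n : ℕ} (hP : P.totalDegree ≤ n) (t : ℝ) : (ph P t).totalDegree ≤ max n 2 := by
  unfold ph
  refine (totalDegree_sub _ _).trans (max_le_max hP ?_)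
  refine (totalDegree_mul _ _).trans ?_
  rw [totalDegree_C, zero_add]
  refine (totalDegree_add _ _).trans (max_le ?_ ?_)
  · exact (totalDegree_pow _ _).trans (by simp)
  · exact (totalDegree_pow _ _).trans (by simp)

theorem ph_d2 (P : Pol) (t : ℝ) (x : E 2) : d2 (ph P t) 0 0 x = d2 P 0 0 x - 2 * t := by
  have h2 : pderiv 0 (2 : Pol) = 0 := by
    rw [show (2 : Pol) = C 2 from rfl]
    exact pderiv_C
  unfold d2 ph ev
  have h : pderiv 0 (pderiv 0 (C t * (X 0 ^ 2 + X 1 ^ 2) : Pol)) = C t * 2 := by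
    simp [pderiv_X, h2]
  rw [map_sub, map_sub, h, map_sub, map_mul, eval_C]
  simp
  ring

/-- the mass of `h` at the points that are reached at the time `t` at the level `m` -/
noncomputable def Dm (m : ℕ) (h : E 2 → ℂ) (P : Pol) (t : ℝ) : ℝ≥0∞ :=
  ∫⁻ x, {z : ℝ × E 2 | |d2 P 0 0 z.2 - 2 * z.1| ≤ 4 ^ m}.indicator (fun z => ‖h z.2‖ₑ ^ 2) (t, x)

theorem d2_cont (P : Pol) (i j : Fin 2) : Continuous (d2 P i j) := ev_cont _

theorem Ds_meas (m : ℕ) (P : Pol) : MeasurableSet {z : ℝ × E 2 | |d2 P 0 0 z.2 - 2 * z.1| ≤ 4 ^ m} := by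
  refine (isClosed_le ?_ continuous_const).measurableSet
  exact (((d2_cont P 0 0).comp continuous_snd).sub (continuous_const.mul continuous_fst)).abs

theorem Df_meas {h : E 2 → ℂ} (hh : Measurable h) (m : ℕ) (P : Pol) :
    Measurable ({z : ℝ × E 2 | |d2 P 0 0 z.2 - 2 * z.1| ≤ 4 ^ m}.indicator (fun z => ‖h z.2‖ₑ ^ 2)) := by
  refine Measurable.indicator ?_ (Ds_meas m P)
  exact (hh.comp measurable_snd).enorm.pow_const 2

theorem Dm_meas {h : E 2 → ℂ} (hh : Measurable h) (m : ℕ) (P : Pol) : Measurable (Dm m h P) :=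
  (Df_meas hh m P).lintegral_prod_right'

theorem Dm_int {h : E 2 → ℂ} (hh : Measurable h) (m : ℕ) (P : Pol) :
    ∫⁻ t, Dm m h P t ≤ ENNReal.ofReal (4 ^ m) * ∫⁻ x, ‖h x‖ₑ ^ 2 := by
  unfold Dm
  rw [lintegral_lintegral_swap (f := fun t x => {z : ℝ × E 2 | |d2 P 0 0 z.2 - 2 * z.1| ≤ 4 ^ m}.indicator
    (fun z => ‖h z.2‖ₑ ^ 2) (t, x)) (Df_meas hh m P).aemeasurable, ← lintegral_const_mul _ (hh.enorm.pow_const 2)]
  refine lintegral_mono fun x => ?_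
  have h1 : ∀ t : ℝ, {z : ℝ × E 2 | |d2 P 0 0 z.2 - 2 * z.1| ≤ 4 ^ m}.indicator
      (fun z => ‖h z.2‖ₑ ^ 2) (t, x) =
      (Icc ((d2 P 0 0 x - 4 ^ m) / 2) ((d2 P 0 0 x + 4 ^ m) / 2)).indicator (fun _ => ‖h x‖ₑ ^ 2) t := by
    intro t
    have h2 : ((t, x) ∈ {z : ℝ × E 2 | |d2 P 0 0 z.2 - 2 * z.1| ≤ 4 ^ m}) ↔
        t ∈ Icc ((d2 P 0 0 x - 4 ^ m) / 2) ((d2 P 0 0 x + 4 ^ m) / 2) := by
      show |d2 P 0 0 x - 2 * t| ≤ 4 ^ m ↔ _
      rw [abs_le, mem_Icc]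
      constructor
      · rintro ⟨h3, h4⟩; constructor <;> linarith
      · rintro ⟨h3, h4⟩; constructor <;> linarith
    by_cases h3 : t ∈ Icc ((d2 P 0 0 x - 4 ^ m) / 2) ((d2 P 0 0 x + 4 ^ m) / 2)
    · rw [indicator_of_mem h3, indicator_of_mem (h2.2 h3)]
    · rw [indicator_of_notMem h3, indicator_of_notMem (fun h4 => h3 (h2.1 h4))]
  simp only [h1]
  rw [lintegral_indicator measurableSet_Icc, lintegral_const, Measure.restrict_apply_univ, Real.volume_Icc,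
    mul_comm]
  refine le_of_eq ?_
  congr 2
  ring

theorem good_D {P : Pol} {t : ℝ} {m : ℕ} {x : E 2} (h : Good (ph P t) m (ix m x)) :
    (t, x) ∈ {z : ℝ × E 2 | |d2 P 0 0 z.2 - 2 * z.1| ≤ 4 ^ m} := by
  have h1 : x ∈ cl m (ix m x) := fun i => ⟨(mem_sq_ix m x i).1, (mem_sq_ix m x i).2.le⟩
  have h2 := h x h1 0 0
  rw [ph_d2] at h2
  exact h2

theorem U0_D (g : E 2 → ℂ) (P : Pol) (t : ℝ) :
    ∫⁻ x, ‖wv (ph P t) (U0 (ph P t) g) x‖ₑ ^ 2 ≤ Dm 0 (av g 0) P t := by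
  unfold Dm
  refine lintegral_mono fun x => ?_
  simp only [wv_enorm]
  unfold U0
  split_ifs with h
  · rw [indicator_of_mem (good_D h)]
  · simp

theorem U1_D (g : E 2 → ℂ) (P : Pol) (t : ℝ) (j : ℕ) :
    ∫⁻ x, ‖wv (ph P t) (U1 (ph P t) g j) x‖ₑ ^ 2 ≤ Dm (j + 1) (fun x => av g (j + 1) x - av g j x) P t := by
  unfold Dm
  refine lintegral_mono fun x => ?_
  simp only [wv_enorm]
  unfold U1
  split_ifs with h
  · rw [indicator_of_mem (good_D h)]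
  · simp

theorem FF_le_of {f : E 2 → ℂ} {B : ℝ} (hB : 0 ≤ B) (h : ∫⁻ x, ‖f x‖ₑ ≤ ENNReal.ofReal B) (y : E 2) :
    ‖FF f y‖ ≤ B := by
  have h1 := (FF_le f y).trans h
  rw [← ofReal_norm] at h1
  exact (ENNReal.ofReal_le_ofReal_iff hB).1 h1

/-- the norm of the difference of the averages -/
theorem dif_one {g : E 2 → ℂ} (hg : Gd g) {V s : ℝ} (hs : 0 ≤ s) (hs1 : s ≤ 1) (hV : 0 ≤ V)
    (hm : ∀ v : E 2, ∫⁻ x, ‖g (x + v) - g x‖ₑ ≤ ENNReal.ofReal (V * ‖v‖ ^ s)) (j : ℕ) :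
    ∫⁻ x, ‖av g (j + 1) x - av g j x‖ₑ ≤ ENNReal.ofReal (16 * V * (2 : ℝ) ^ (-(s * j))) := by
  have h1 := av_mod g hg.bs.int V s hs hs1 hV hm (j + 1)
  have h2 := av_mod g hg.bs.int V s hs hs1 hV hm j
  have h3 : ∫⁻ x, ‖av g (j + 1) x - av g j x‖ₑ ≤ ∫⁻ x, (‖av g (j + 1) x - g x‖ₑ + ‖av g j x - g x‖ₑ) := by
    refine lintegral_mono fun x => ?_
    have e : av g (j + 1) x - av g j x = (av g (j + 1) x - g x) - (av g j x - g x) := by ring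
    rw [e]
    exact enorm_sub_le
  refine h3.trans ?_
  rw [lintegral_add_left (f := fun x => ‖av g (j + 1) x - g x‖ₑ) (((av_meas g (j + 1)).sub hg.m).enorm)]
  refine (add_le_add h1 h2).trans ?_
  rw [← ENNReal.ofReal_add (by positivity) (by positivity)]
  refine ENNReal.ofReal_le_ofReal ?_
  have h4 : (2 : ℝ) ^ (-(s * ((j + 1 : ℕ) : ℝ))) ≤ (2 : ℝ) ^ (-(s * j)) := by
    refine Real.rpow_le_rpow_of_exponent_le (by norm_num) ?_
    push_cast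
    nlinarith
  nlinarith

theorem dif_two {g : E 2 → ℂ} (hg : Gd g) {V s : ℝ} (hs : 0 ≤ s) (hs1 : s ≤ 1) (hV : 0 ≤ V)
    (hm : ∀ v : E 2, ∫⁻ x, ‖g (x + v) - g x‖ₑ ≤ ENNReal.ofReal (V * ‖v‖ ^ s)) (j : ℕ) :
    ∫⁻ x, ‖av g (j + 1) x - av g j x‖ₑ ^ 2 ≤ 2 * ENNReal.ofReal (16 * V * (2 : ℝ) ^ (-(s * j))) := by
  have h3 : ∫⁻ x, ‖av g (j + 1) x - av g j x‖ₑ ^ 2 ≤ ∫⁻ x, 2 * ‖av g (j + 1) x - av g j x‖ₑ := by
    refine lintegral_mono fun x => ?_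
    simp only
    rw [pow_two]
    gcongr
    rw [← ofReal_norm]
    have := (dif_bs hg j).b x
    calc ENNReal.ofReal ‖av g (j + 1) x - av g j x‖ ≤ ENNReal.ofReal 2 := ENNReal.ofReal_le_ofReal this
      _ = 2 := by simp
  refine h3.trans ?_
  rw [lintegral_const_mul _ ((dif_bs hg j).m.enorm)]
  gcongr
  exact dif_one hg hs hs1 hV hm j

/-- Plancherel's constant -/
noncomputable def pl : ℝ≥0∞ := ENNReal.ofReal ((2 * Real.pi) ^ 2)

theorem U0_int {g : E 2 → ℂ} (hg : Gd g) (P : Pol) (q : ℝ) (hq : 2 ≤ q) (t : ℝ) :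
    ∫⁻ y, ‖FF (wv (ph P t) (U0 (ph P t) g)) y‖ₑ ^ q ≤
      pl * volume SS ^ (q - 2) * Dm 0 (av g 0) P t := by
  have hb := (U0_bs hg (ph P t)).wv (ph P t)
  have h0 : ∫⁻ x, ‖wv (ph P t) (U0 (ph P t) g) x‖ₑ ≤ ENNReal.ofReal (volume SS).toReal := by
    rw [ENNReal.ofReal_toReal SS_fin, ← lintegral_indicator_one SS_meas]
    refine lintegral_mono fun x => ?_
    by_cases hx : x ∈ SS
    · rw [indicator_of_mem hx, Pi.one_apply, ← ofReal_norm]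
      exact ENNReal.ofReal_le_one.2 (hb.b x)
    · rw [hb.z x hx]; simp
  refine (fixed q hq _ hb.int (hb.memLp 2) _ (FF_le_of ENNReal.toReal_nonneg h0)).trans ?_
  rw [ENNReal.ofReal_toReal SS_fin]
  unfold pl
  gcongr
  exact U0_D g P t

theorem U1_int {g : E 2 → ℂ} (hg : Gd g) {V s : ℝ} (hs : 0 ≤ s) (hs1 : s ≤ 1) (hV : 0 ≤ V)
    (hm : ∀ v : E 2, ∫⁻ x, ‖g (x + v) - g x‖ₑ ≤ ENNReal.ofReal (V * ‖v‖ ^ s)) (P : Pol) (q : ℝ) (hq : 2 ≤ q)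
    (t : ℝ) (j : ℕ) :
    ∫⁻ y, ‖FF (wv (ph P t) (U1 (ph P t) g j)) y‖ₑ ^ q ≤
      pl * ENNReal.ofReal (16 * V * (2 : ℝ) ^ (-(s * j))) ^ (q - 2) *
        Dm (j + 1) (fun x => av g (j + 1) x - av g j x) P t := by
  have hb := (U1_bs hg (ph P t) j).wv (ph P t)
  have h0 : ∫⁻ x, ‖wv (ph P t) (U1 (ph P t) g j) x‖ₑ ≤ ENNReal.ofReal (16 * V * (2 : ℝ) ^ (-(s * j))) := by
    refine le_trans (lintegral_mono fun x => ?_) (dif_one hg hs hs1 hV hm j)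
    rw [wv_enorm]
    unfold U1
    split_ifs
    · exact le_rfl
    · simp
  refine (fixed q hq _ hb.int (hb.memLp 2) _ (FF_le_of (by positivity) h0)).trans ?_
  unfold pl
  gcongr
  exact U1_D g P t j

end Pool.Agent.J4.H87.PA
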