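import Mathlib
import Pool.Agent.J4.H87.PA.Asm4
set_option autoImplicit false

/-! Polynomial phases: the total. -/

namespace Pool.Agent.J4.H87.PA

open Pool.Agent.J4.H87.PP
open MeasureTheory Set MvPolynomial Filter Topology
open scoped ENNReal NNReal RealInnerProductSpace

/-- the weights -/
noncomputable def vw (β x : ℝ) : ℝ≥0∞ := ENNReal.ofReal ((2 : ℝ) ^ (-(β * x)))

theorem vw_ne0 (β x : ℝ) : vw β x ≠ 0 := by
  unfold vw
  exact (ENNReal.ofReal_pos.2 (by positivity)).ne'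

theorem vw_nt (β x : ℝ) : vw β x ≠ ∞ := ENNReal.ofReal_ne_top

theorem vw_rpow (β x q : ℝ) : vw β x ^ (-q) = ENNReal.ofReal ((2 : ℝ) ^ (β * x * q)) := by
  unfold vw
  rw [ENNReal.ofReal_rpow_of_pos (by positivity), ← Real.rpow_mul (by norm_num)]
  congr 2
  ring

theorem sum2 {κ : ℝ} (hκ : 0 < κ) :
    ∑' kl : ℕ × ℕ, ENNReal.ofReal ((2 : ℝ) ^ (-(κ * ((kl.1 : ℝ) + kl.2)))) ≠ ∞ := by
  have h : ∀ k l : ℕ, ENNReal.ofReal ((2 : ℝ) ^ (-(κ * ((k : ℝ) + l)))) =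
      ENNReal.ofReal ((2 : ℝ) ^ (-(κ * k))) * ENNReal.ofReal ((2 : ℝ) ^ (-(κ * l))) := by
    intro k l
    rw [← ENNReal.ofReal_mul (by positivity), ← Real.rpow_add (by norm_num)]
    congr 2
    ring
  rw [ENNReal.tsum_prod (f := fun (k l : ℕ) => ENNReal.ofReal ((2 : ℝ) ^ (-(κ * ((k : ℝ) + l)))))]
  simp only [h, ENNReal.tsum_mul_left, ENNReal.tsum_mul_right]
  exact ENNReal.mul_ne_top (geo κ hκ) (geo κ hκ)

theorem lin3 {X : Type} [MeasurableSpace X] (μ : Measure X) {a b c : X → ℝ≥0∞} (ha : Measurable a)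
    (hb : Measurable b) (hc : Measurable c) (K M N : ℝ≥0∞) :
    ∫⁻ y, K * (a y + M * b y + N * c y) ∂μ =
      K * ((∫⁻ y, a y ∂μ) + M * (∫⁻ y, b y ∂μ) + N * ∫⁻ y, c y ∂μ) := by
  have h1 : Measurable fun y => a y + M * b y + N * c y :=
    (ha.add (hb.const_mul M)).add (hc.const_mul N)
  rw [lintegral_const_mul K h1, lintegral_add_right (fun y => a y + M * b y) (hc.const_mul N),
    lintegral_add_right a (hb.const_mul M), lintegral_const_mul M hb, lintegral_const_mul N hc]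

/-- the inequality at a fixed time -/
theorem pertime (n : ℕ) (δ q : ℝ) (hδ : 0 < δ) (hδ1 : δ < 1) (hq : 2 ≤ q) : ∃ C c : ℝ, 0 < C ∧ 0 < c ∧ c ≤ 1 ∧
    ∀ (β β' : ℝ) (P : Pol), P.totalDegree ≤ n → ∀ (g : E 2 → ℂ), Gd g → ∀ (V s : ℝ), 0 < s → s ≤ 1 → 0 ≤ V →
      (∀ v : E 2, ∫⁻ x, ‖g (x + v) - g x‖ₑ ≤ ENNReal.ofReal (V * ‖v‖ ^ s)) → ∀ t : ℝ,
      ∫⁻ y, ‖FF (wv (ph P t) g) y‖ₑ ^ q ≤ 3 ^ q * (pl * volume SS ^ (q - 2) * Dm 0 (av g 0) P t +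
        (∑' j : ℕ, vw β j) ^ q * ∑' j : ℕ, vw β j ^ (-q) *
          (pl * ENNReal.ofReal (16 * V * (2 : ℝ) ^ (-(s * j))) ^ (q - 2) *
            Dm (j + 1) (fun x => av g (j + 1) x - av g j x) P t) +
        (∑' kl : ℕ × ℕ, vw β' (kl.1 + kl.2)) ^ q * ∑' kl : ℕ × ℕ, vw β' (kl.1 + kl.2) ^ (-q) *
          (pl * ENNReal.ofReal (C * zz c kl.1 kl.2 ^ (1 - δ)) ^ (q - 2) *
            volume (A (ph P t) kl.1 kl.2))) := by
  obtain ⟨C, c, hC, hc, hc1, H⟩ := R2_int (max n 2) δ q hδ hδ1 hq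
  refine ⟨C, c, hC, hc, hc1, fun β β' P hP g hg V s hs hs1 hV hm t => ?_⟩
  have hq0 : 0 < q := by linarith
  set p := ph P t with hp
  have hpd : p.totalDegree ≤ max n 2 := ph_deg hP t
  have mU0 : Measurable fun y => ‖FF (wv p (U0 p g)) y‖ₑ ^ q :=
    ((FF_cont ((U0_bs hg p).wv p).int).measurable.enorm).pow_const q
  have mU1 : ∀ j, Measurable fun y => ‖FF (wv p (U1 p g j)) y‖ₑ ^ q := fun j =>
    ((FF_cont ((U1_bs hg p j).wv p).int).measurable.enorm).pow_const q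
  have mR2 : ∀ kl : ℕ × ℕ, Measurable fun y => ‖FF (wv p (R2 p g kl.1 kl.2)) y‖ₑ ^ q := fun kl =>
    ((FF_cont ((R2_bs hg p kl.1 kl.2).wv p).int).measurable.enorm).pow_const q
  calc ∫⁻ y, ‖FF (wv p g) y‖ₑ ^ q
      ≤ ∫⁻ y, 3 ^ q * (‖FF (wv p (U0 p g)) y‖ₑ ^ q +
          (∑' j : ℕ, vw β j) ^ q * ∑' j : ℕ, vw β j ^ (-q) * ‖FF (wv p (U1 p g j)) y‖ₑ ^ q +
          (∑' kl : ℕ × ℕ, vw β' (kl.1 + kl.2)) ^ q * ∑' kl : ℕ × ℕ, vw β' (kl.1 + kl.2) ^ (-q) *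
            ‖FF (wv p (R2 p g kl.1 kl.2)) y‖ₑ ^ q) := by
        refine lintegral_mono fun y => ?_
        refine (ENNReal.rpow_le_rpow (point hg hs hs1 hV hm p y) hq0.le).trans ?_
        refine (three q hq0 _ _ _).trans ?_
        gcongr
        · exact wsum q hq0 _ _ (fun j => vw_ne0 _ _) (fun j => vw_nt _ _)
        · exact wsum q hq0 _ _ (fun j => vw_ne0 _ _) (fun j => vw_nt _ _)
    _ = 3 ^ q * ((∫⁻ y, ‖FF (wv p (U0 p g)) y‖ₑ ^ q) +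
          (∑' j : ℕ, vw β j) ^ q * (∑' j : ℕ, vw β j ^ (-q) * ∫⁻ y, ‖FF (wv p (U1 p g j)) y‖ₑ ^ q) +
          (∑' kl : ℕ × ℕ, vw β' (kl.1 + kl.2)) ^ q * ∑' kl : ℕ × ℕ, vw β' (kl.1 + kl.2) ^ (-q) *
            ∫⁻ y, ‖FF (wv p (R2 p g kl.1 kl.2)) y‖ₑ ^ q) := by
        have m1 : Measurable fun y => ∑' j : ℕ, vw β j ^ (-q) * ‖FF (wv p (U1 p g j)) y‖ₑ ^ q :=
          Measurable.tsum fun j => (mU1 j).const_mul _
        have m2 : Measurable fun y => ∑' kl : ℕ × ℕ, vw β' (kl.1 + kl.2) ^ (-q) *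
            ‖FF (wv p (R2 p g kl.1 kl.2)) y‖ₑ ^ q := Measurable.tsum fun kl => (mR2 kl).const_mul _
        have e1 : ∫⁻ y, ∑' j : ℕ, vw β j ^ (-q) * ‖FF (wv p (U1 p g j)) y‖ₑ ^ q =
            ∑' j : ℕ, vw β j ^ (-q) * ∫⁻ y, ‖FF (wv p (U1 p g j)) y‖ₑ ^ q := by
          rw [lintegral_tsum fun j => ((mU1 j).const_mul _).aemeasurable]
          exact tsum_congr fun j => lintegral_const_mul _ (mU1 j)
        have e2 : ∫⁻ y, ∑' kl : ℕ × ℕ, vw β' (kl.1 + kl.2) ^ (-q) *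
            ‖FF (wv p (R2 p g kl.1 kl.2)) y‖ₑ ^ q = ∑' kl : ℕ × ℕ, vw β' (kl.1 + kl.2) ^ (-q) *
            ∫⁻ y, ‖FF (wv p (R2 p g kl.1 kl.2)) y‖ₑ ^ q := by
          rw [lintegral_tsum fun kl => ((mR2 kl).const_mul _).aemeasurable]
          exact tsum_congr fun kl => lintegral_const_mul _ (mR2 kl)
        rw [lin3 volume mU0 m1 m2, e1, e2]
    _ ≤ _ := by
        gcongr 3 ^ q * (?_ + _ * ?_ + _ * ?_)
        · exact U0_int hg P q hq t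
        · exact ENNReal.tsum_le_tsum fun j => by
            gcongr
            exact U1_int hg hs.le hs1 hV hm P q hq t j
        · exact ENNReal.tsum_le_tsum fun kl => by
            gcongr
            exact H p hpd g hg kl.1 kl.2

end Pool.Agent.J4.H87.PA
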