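import Mathlib
import Pool.Agent.J4.H87.PA.Asm5
set_option autoImplicit false

/-! Polynomial phases: the final bound in time and space. -/

namespace Pool.Agent.J4.H87.PA

open Pool.Agent.J4.H87.PP
open MeasureTheory Set MvPolynomial Filter Topology
open scoped ENNReal NNReal RealInnerProductSpace

theorem real1 {q s V β : ℝ} (hV : 0 ≤ V) (hq : 3 < q) (j : ℕ) :
    (2 : ℝ) ^ (β * j * q) * ((16 * V * (2 : ℝ) ^ (-(s * j))) ^ (q - 2) *
      (4 ^ (j + 1) * (2 * (16 * V * (2 : ℝ) ^ (-(s * j)))))) ≤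
      8 * 16 ^ (q - 1) * (1 + V) ^ (q - 1) * (2 : ℝ) ^ (-((s * (q - 1) - 2 - β * q) * j)) := by
  set X : ℝ := 16 * V * (2 : ℝ) ^ (-(s * j)) with hX
  have hX0 : 0 ≤ X := by positivity
  have h1 : X ^ (q - 2) * X = X ^ (q - 1) := by
    rcases hX0.eq_or_lt with h | h
    · rw [← h, Real.zero_rpow (by linarith), Real.zero_rpow (by linarith), zero_mul]
    · rw [show q - 1 = (q - 2) + 1 by ring, Real.rpow_add h, Real.rpow_one]
  have h2 : X ^ (q - 1) = 16 ^ (q - 1) * V ^ (q - 1) * (2 : ℝ) ^ (-(s * j) * (q - 1)) := by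
    rw [hX, Real.mul_rpow (by positivity) (by positivity), Real.mul_rpow (by positivity) hV,
      ← Real.rpow_mul (by norm_num)]
  have h3 : (4 : ℝ) ^ (j + 1) = 4 * (2 : ℝ) ^ (2 * (j : ℝ)) := by
    rw [pow_succ, mul_comm]
    congr 1
    rw [Real.rpow_mul (by norm_num), Real.rpow_natCast]
    norm_num
  have h4 : V ^ (q - 1) ≤ (1 + V) ^ (q - 1) := Real.rpow_le_rpow hV (by linarith) (by linarith)
  calc (2 : ℝ) ^ (β * j * q) * (X ^ (q - 2) * (4 ^ (j + 1) * (2 * X)))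
      = 2 * 4 ^ (j + 1) * (2 : ℝ) ^ (β * j * q) * (X ^ (q - 2) * X) := by ring
    _ = 8 * 16 ^ (q - 1) * V ^ (q - 1) *
        ((2 : ℝ) ^ (2 * (j : ℝ)) * (2 : ℝ) ^ (β * j * q) * (2 : ℝ) ^ (-(s * j) * (q - 1))) := by
        rw [h1, h2, h3]; ring
    _ = 8 * 16 ^ (q - 1) * V ^ (q - 1) * (2 : ℝ) ^ (-((s * (q - 1) - 2 - β * q) * j)) := by
        rw [← Real.rpow_add (by norm_num), ← Real.rpow_add (by norm_num)]
        congr 2
        ring
    _ ≤ _ := by gcongr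

theorem real2 {q c C η β' δ : ℝ} (hC : 0 < C) (hc : 0 < c) (hc1 : c ≤ 1) (hη : 0 < η)
    (hδ : (1 - δ) * (q - 2) = 1 + 2 * η) (hβ : β' * q = η * c / 2) (k l : ℕ) :
    (2 : ℝ) ^ (β' * (k + l) * q) * ((C * zz c k l ^ (1 - δ)) ^ (q - 2) * 2 ^ l) ≤
      C ^ (q - 2) * (2 : ℝ) ^ (-((η * c / 2) * ((k : ℝ) + l))) := by
  have hz : 0 < zz c k l := by unfold zz; positivity
  have h1 : (C * zz c k l ^ (1 - δ)) ^ (q - 2) = C ^ (q - 2) * zz c k l ^ (1 + 2 * η) := by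
    rw [Real.mul_rpow hC.le (by positivity), ← Real.rpow_mul hz.le, hδ]
  have h2 : zz c k l ^ (1 + 2 * η) ≤ (2 : ℝ) ^ (-((1 + η) * l + η * c * k)) := by
    unfold zz
    rw [← Real.rpow_mul (by norm_num)]
    refine Real.rpow_le_rpow_of_exponent_le (by norm_num) ?_
    have a1 : (l : ℝ) ≤ max (l : ℝ) (c * k) := le_max_left _ _
    have a2 : c * k ≤ max (l : ℝ) (c * k) := le_max_right _ _
    nlinarith
  have h3 : (2 : ℝ) ^ l = (2 : ℝ) ^ (l : ℝ) := by rw [Real.rpow_natCast]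
  rw [h1]
  calc (2 : ℝ) ^ (β' * (k + l) * q) * (C ^ (q - 2) * zz c k l ^ (1 + 2 * η) * 2 ^ l)
      = C ^ (q - 2) * ((2 : ℝ) ^ (β' * (k + l) * q) * zz c k l ^ (1 + 2 * η) * 2 ^ l) := by ring
    _ ≤ C ^ (q - 2) * ((2 : ℝ) ^ (β' * (k + l) * q) * (2 : ℝ) ^ (-((1 + η) * l + η * c * k)) * 2 ^ l) := by
        gcongr
    _ ≤ C ^ (q - 2) * (2 : ℝ) ^ (-((η * c / 2) * ((k : ℝ) + l))) := by
        gcongr
        rw [h3, ← Real.rpow_add (by norm_num), ← Real.rpow_add (by norm_num)]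
        refine Real.rpow_le_rpow_of_exponent_le (by norm_num) ?_
        have b1 : β' * (k + l) * q = η * c / 2 * (k + l) := by rw [← hβ]; ring
        rw [b1]
        have hk : (0 : ℝ) ≤ k := Nat.cast_nonneg k
        have hl : (0 : ℝ) ≤ l := Nat.cast_nonneg l
        have b2 : η * c * l ≤ η * l := by
          have := mul_le_mul_of_nonneg_left hc1 (mul_nonneg hη.le hl)
          nlinarith
        nlinarith

theorem av0_sq {g : E 2 → ℂ} (hg : Gd g) : ∫⁻ x, ‖av g 0 x‖ₑ ^ 2 ≤ volume SS := by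
  rw [← lintegral_indicator_one SS_meas]
  refine lintegral_mono fun x => ?_
  by_cases hx : x ∈ SS
  · rw [indicator_of_mem hx, Pi.one_apply]
    refine pow_le_one₀ (by simp) ?_
    rw [← ofReal_norm]
    exact ENNReal.ofReal_le_one.2 ((hg.av 0).b x)
  · rw [(hg.av 0).z x hx]; simp

theorem total (n : ℕ) (q s : ℝ) (hq : 3 < q) (hs : 2 < s * (q - 1)) (hs0 : 0 < s) (hs1 : s ≤ 1) :
    ∃ C : ℝ≥0, ∀ P : Pol, P.totalDegree ≤ n → ∀ (g : E 2 → ℂ), Gd g → ∀ V : ℝ, 0 ≤ V →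
      (∀ v : E 2, ∫⁻ x, ‖g (x + v) - g x‖ₑ ≤ ENNReal.ofReal (V * ‖v‖ ^ s)) →
      ∫⁻ t : ℝ, ∫⁻ y, ‖FF (wv (ph P t) g) y‖ₑ ^ q ≤ C * ENNReal.ofReal ((1 + V) ^ (q - 1)) := by
  obtain ⟨η, hη⟩ : ∃ η : ℝ, η = (q - 3) / 4 := ⟨_, rfl⟩
  obtain ⟨δ, hδ⟩ : ∃ δ : ℝ, δ = (q - 3) / (2 * (q - 2)) := ⟨_, rfl⟩
  have hη0 : 0 < η := by rw [hη]; linarith
  have hδ0 : 0 < δ := by rw [hδ]; exact div_pos (by linarith) (by linarith)
  have hδ1 : δ < 1 := by rw [hδ, div_lt_one (by linarith)]; linarith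
  have hδη : (1 - δ) * (q - 2) = 1 + 2 * η := by
    rw [hδ, hη]
    have : q - 2 ≠ 0 := by linarith
    field_simp
    ring
  have hq0 : 0 < q := by linarith
  obtain ⟨β, hβ⟩ : ∃ β : ℝ, β = (s * (q - 1) - 2) / (2 * q) := ⟨_, rfl⟩
  have hβ1 : β * q = (s * (q - 1) - 2) / 2 := by rw [hβ]; field_simp
  have hβ0 : 0 < β := by rw [hβ]; exact div_pos (by linarith) (by linarith)
  obtain ⟨Ct, hCt⟩ := tin n
  obtain ⟨C0, c, hC0, hc, hc1, H0⟩ := pertime n δ q hδ0 hδ1 (by linarith)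
  obtain ⟨β', hβ'⟩ : ∃ β' : ℝ, β' = η * c / 2 / q := ⟨_, rfl⟩
  have hβ'1 : β' * q = η * c / 2 := by rw [hβ']; field_simp
  have hβ'0 : 0 < β' := by rw [hβ']; positivity
  -- the three constants
  set Sv : ℝ≥0∞ := ∑' j : ℕ, vw β j with hSv
  set Sw : ℝ≥0∞ := ∑' kl : ℕ × ℕ, vw β' (kl.1 + kl.2) with hSw
  have hSv1 : Sv ≠ ∞ := geo β hβ0
  have hSw1 : Sw ≠ ∞ := sum2 hβ'0
  set Q1 : ℝ≥0∞ := ∑' j : ℕ, ENNReal.ofReal ((2 : ℝ) ^ (-((s * (q - 1) - 2 - β * q) * j))) with hQ1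
  have hQ11 : Q1 ≠ ∞ := geo _ (by rw [hβ1]; linarith)
  set Q2 : ℝ≥0∞ := ∑' kl : ℕ × ℕ, ENNReal.ofReal ((2 : ℝ) ^ (-((η * c / 2) * ((kl.1 : ℝ) + kl.2)))) with hQ2
  have hQ21 : Q2 ≠ ∞ := sum2 (by positivity)
  set K0 : ℝ≥0∞ := pl * volume SS ^ (q - 2) * volume SS with hK0
  set K1 : ℝ≥0∞ := Sv ^ q * (pl * (ENNReal.ofReal (8 * 16 ^ (q - 1)) * Q1)) with hK1
  set K2 : ℝ≥0∞ := Sw ^ q * (pl * (Ct * (ENNReal.ofReal (C0 ^ (q - 2)) * Q2))) with hK2
  have hpl : pl ≠ ∞ := ENNReal.ofReal_ne_top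
  have hK01 : K0 ≠ ∞ := ENNReal.mul_ne_top (ENNReal.mul_ne_top hpl
    (ENNReal.rpow_ne_top_of_nonneg (by linarith) SS_fin)) SS_fin
  have hK11 : K1 ≠ ∞ := ENNReal.mul_ne_top (ENNReal.rpow_ne_top_of_nonneg hq0.le hSv1)
    (ENNReal.mul_ne_top hpl (ENNReal.mul_ne_top ENNReal.ofReal_ne_top hQ11))
  have hK21 : K2 ≠ ∞ := ENNReal.mul_ne_top (ENNReal.rpow_ne_top_of_nonneg hq0.le hSw1)
    (ENNReal.mul_ne_top hpl (ENNReal.mul_ne_top ENNReal.coe_ne_top
      (ENNReal.mul_ne_top ENNReal.ofReal_ne_top hQ21)))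
  have hfin : 3 ^ q * (K0 + K1 + K2) ≠ ∞ :=
    ENNReal.mul_ne_top (ENNReal.rpow_ne_top_of_nonneg hq0.le (by norm_num))
      (ENNReal.add_ne_top.2 ⟨ENNReal.add_ne_top.2 ⟨hK01, hK11⟩, hK21⟩)
  refine ⟨(3 ^ q * (K0 + K1 + K2)).toNNReal, fun P hP g hg V hV hm => ?_⟩
  rw [ENNReal.coe_toNNReal hfin]
  choose b hbm hb1 hb2 using hCt P hP
  have hh : ∀ j, Measurable fun x => av g (j + 1) x - av g j x := fun j => (dif_bs hg j).m
  -- the three functions of the time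
  have m0 : Measurable fun t => pl * volume SS ^ (q - 2) * Dm 0 (av g 0) P t :=
    (Dm_meas (av_meas g 0) 0 P).const_mul _
  have m1' : ∀ j : ℕ, Measurable fun t => vw β j ^ (-q) *
      (pl * ENNReal.ofReal (16 * V * (2 : ℝ) ^ (-(s * j))) ^ (q - 2) *
            Dm (j + 1) (fun x => av g (j + 1) x - av g j x) P t) := fun j =>
    ((Dm_meas (hh j) (j + 1) P).const_mul _).const_mul _
  have m2' : ∀ kl : ℕ × ℕ, Measurable fun t => vw β' (kl.1 + kl.2) ^ (-q) *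
          (pl * ENNReal.ofReal (C0 * zz c kl.1 kl.2 ^ (1 - δ)) ^ (q - 2) * b kl.1 kl.2 t) := fun kl =>
    ((hbm kl.1 kl.2).const_mul _).const_mul _
  have hone : (1 : ℝ) ≤ (1 + V) ^ (q - 1) := Real.one_le_rpow (by linarith) (by linarith)
  have hone' : (1 : ℝ≥0∞) ≤ ENNReal.ofReal ((1 + V) ^ (q - 1)) := by
    rw [← ENNReal.ofReal_one]
    exact ENNReal.ofReal_le_ofReal hone
  calc ∫⁻ t : ℝ, ∫⁻ y, ‖FF (wv (ph P t) g) y‖ₑ ^ q
      ≤ ∫⁻ t : ℝ, 3 ^ q * ((pl * volume SS ^ (q - 2) * Dm 0 (av g 0) P t) +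
        Sv ^ q * (∑' j : ℕ, vw β j ^ (-q) *
          (pl * ENNReal.ofReal (16 * V * (2 : ℝ) ^ (-(s * j))) ^ (q - 2) *
            Dm (j + 1) (fun x => av g (j + 1) x - av g j x) P t)) +
        Sw ^ q * ∑' kl : ℕ × ℕ, vw β' (kl.1 + kl.2) ^ (-q) *
          (pl * ENNReal.ofReal (C0 * zz c kl.1 kl.2 ^ (1 - δ)) ^ (q - 2) * b kl.1 kl.2 t)) := by
        refine lintegral_mono fun t => (H0 β β' P hP g hg V s hs0 hs1 hV hm t).trans ?_
        gcongr 3 ^ q * (_ + _ * _ + _ * ?_)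
        exact ENNReal.tsum_le_tsum fun kl => by
          gcongr
          exact hb1 kl.1 kl.2 t
    _ = 3 ^ q * ((∫⁻ t : ℝ, pl * volume SS ^ (q - 2) * Dm 0 (av g 0) P t) +
        Sv ^ q * (∑' j : ℕ, vw β j ^ (-q) *
          (pl * ENNReal.ofReal (16 * V * (2 : ℝ) ^ (-(s * j))) ^ (q - 2) *
            ∫⁻ t : ℝ, Dm (j + 1) (fun x => av g (j + 1) x - av g j x) P t)) +
        Sw ^ q * ∑' kl : ℕ × ℕ, vw β' (kl.1 + kl.2) ^ (-q) *
          (pl * ENNReal.ofReal (C0 * zz c kl.1 kl.2 ^ (1 - δ)) ^ (q - 2) * ∫⁻ t : ℝ, b kl.1 kl.2 t)) := by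
        rw [lin3 volume m0 (Measurable.tsum m1') (Measurable.tsum m2'),
          lintegral_tsum fun j => (m1' j).aemeasurable, lintegral_tsum fun kl => (m2' kl).aemeasurable]
        congr 3
        · congr 2
          funext j
          rw [lintegral_const_mul _ ((Dm_meas (hh j) (j + 1) P).const_mul _),
            lintegral_const_mul _ (Dm_meas (hh j) (j + 1) P)]
        · congr 1
          funext kl
          rw [lintegral_const_mul _ ((hbm kl.1 kl.2).const_mul _), lintegral_const_mul _ (hbm kl.1 kl.2)]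
    _ ≤ 3 ^ q * (K0 * ENNReal.ofReal ((1 + V) ^ (q - 1)) + K1 * ENNReal.ofReal ((1 + V) ^ (q - 1)) +
          K2 * ENNReal.ofReal ((1 + V) ^ (q - 1))) := by
        gcongr 3 ^ q * (?_ + ?_ + ?_)
        · rw [lintegral_const_mul _ (Dm_meas (av_meas g 0) 0 P)]
          refine le_trans ?_ (le_mul_of_one_le_right (by simp) hone')
          rw [hK0]
          gcongr
          refine (Dm_int (av_meas g 0) 0 P).trans ?_
          rw [pow_zero, ENNReal.ofReal_one, one_mul]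
          exact av0_sq hg
        · rw [hK1, mul_assoc]
          gcongr Sv ^ q * ?_
          rw [hQ1, ← ENNReal.tsum_mul_left, ← ENNReal.tsum_mul_left, ← ENNReal.tsum_mul_right]
          refine ENNReal.tsum_le_tsum fun j => ?_
          have e1 : ∫⁻ t : ℝ, Dm (j + 1) (fun x => av g (j + 1) x - av g j x) P t ≤
              ENNReal.ofReal (4 ^ (j + 1) * (2 * (16 * V * (2 : ℝ) ^ (-(s * j))))) := by
            refine (Dm_int (hh j) (j + 1) P).trans ?_
            rw [ENNReal.ofReal_mul (by positivity), ENNReal.ofReal_mul (by norm_num)]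
            gcongr
            refine (dif_two hg hs0.le hs1 hV hm j).trans (le_of_eq ?_)
            simp
          calc vw β j ^ (-q) * (pl * ENNReal.ofReal (16 * V * (2 : ℝ) ^ (-(s * j))) ^ (q - 2) *
                ∫⁻ t : ℝ, Dm (j + 1) (fun x => av g (j + 1) x - av g j x) P t)
              ≤ vw β j ^ (-q) * (pl * ENNReal.ofReal (16 * V * (2 : ℝ) ^ (-(s * j))) ^ (q - 2) *
                ENNReal.ofReal (4 ^ (j + 1) * (2 * (16 * V * (2 : ℝ) ^ (-(s * j)))))) := by gcongr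
            _ = pl * ENNReal.ofReal ((2 : ℝ) ^ (β * j * q) * ((16 * V * (2 : ℝ) ^ (-(s * j))) ^ (q - 2) *
                (4 ^ (j + 1) * (2 * (16 * V * (2 : ℝ) ^ (-(s * j))))))) := by
                rw [vw_rpow, ENNReal.ofReal_rpow_of_nonneg (by positivity) (by linarith),
                  ENNReal.ofReal_mul (by positivity : (0 : ℝ) ≤ (2 : ℝ) ^ (β * j * q)),
                  ENNReal.ofReal_mul (by positivity : (0 : ℝ) ≤ (16 * V * (2 : ℝ) ^ (-(s * j))) ^ (q - 2))]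
                ring
            _ ≤ pl * ENNReal.ofReal (8 * 16 ^ (q - 1) * (1 + V) ^ (q - 1) *
                (2 : ℝ) ^ (-((s * (q - 1) - 2 - β * q) * j))) := by
                gcongr pl * ENNReal.ofReal ?_
                exact real1 hV hq j
            _ = pl * (ENNReal.ofReal (8 * 16 ^ (q - 1)) *
                ENNReal.ofReal ((2 : ℝ) ^ (-((s * (q - 1) - 2 - β * q) * j)))) *
                ENNReal.ofReal ((1 + V) ^ (q - 1)) := by
                rw [ENNReal.ofReal_mul (by positivity), ENNReal.ofReal_mul (by positivity)]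
                ring
        · rw [hK2, mul_assoc]
          gcongr Sw ^ q * ?_
          rw [hQ2, ← ENNReal.tsum_mul_left, ← ENNReal.tsum_mul_left, ← ENNReal.tsum_mul_left,
            ← ENNReal.tsum_mul_right]
          refine ENNReal.tsum_le_tsum fun kl => ?_
          obtain ⟨k, l⟩ := kl
          calc vw β' (k + l) ^ (-q) * (pl * ENNReal.ofReal (C0 * zz c k l ^ (1 - δ)) ^ (q - 2) *
                ∫⁻ t : ℝ, b k l t)
              ≤ vw β' (k + l) ^ (-q) * (pl * ENNReal.ofReal (C0 * zz c k l ^ (1 - δ)) ^ (q - 2) *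
                (Ct * 2 ^ l)) := by
                gcongr
                exact hb2 k l
            _ = pl * (Ct * ENNReal.ofReal ((2 : ℝ) ^ (β' * (k + l) * q) *
                ((C0 * zz c k l ^ (1 - δ)) ^ (q - 2) * 2 ^ l))) := by
                have hz : 0 < zz c k l := by unfold zz; positivity
                have e2 : (2 : ℝ≥0∞) ^ l = ENNReal.ofReal (2 ^ l) := by
                  rw [ENNReal.ofReal_pow (by norm_num)]; simp
                rw [vw_rpow, e2, ENNReal.ofReal_rpow_of_nonneg (by positivity) (by linarith),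
                  ENNReal.ofReal_mul (by positivity : (0 : ℝ) ≤ (2 : ℝ) ^ (β' * (k + l) * q)),
                  ENNReal.ofReal_mul (by positivity : (0 : ℝ) ≤ (C0 * zz c k l ^ (1 - δ)) ^ (q - 2))]
                ring
            _ ≤ pl * (Ct * ENNReal.ofReal (C0 ^ (q - 2) *
                (2 : ℝ) ^ (-((η * c / 2) * ((k : ℝ) + l))))) := by
                gcongr pl * (Ct * ENNReal.ofReal ?_)
                exact real2 hC0 hc hc1 hη0 hδη hβ'1 k l
            _ = pl * (Ct * (ENNReal.ofReal (C0 ^ (q - 2)) *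
                ENNReal.ofReal ((2 : ℝ) ^ (-((η * c / 2) * ((k : ℝ) + l)))))) := by
                rw [ENNReal.ofReal_mul (by positivity)]
            _ ≤ pl * (Ct * (ENNReal.ofReal (C0 ^ (q - 2)) *
                ENNReal.ofReal ((2 : ℝ) ^ (-((η * c / 2) * ((k : ℝ) + l)))))) *
                ENNReal.ofReal ((1 + V) ^ (q - 1)) := le_mul_of_one_le_right (by simp) hone'
    _ = 3 ^ q * (K0 + K1 + K2) * ENNReal.ofReal ((1 + V) ^ (q - 1)) := by ring

end Pool.Agent.J4.H87.PA
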