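import Pool.Agent.J4.H87.PA.Asm6
import Pool.Agent.J4.H87.PP.Tr
import Pool.Agent.J4.H87.PP.Pb
set_option autoImplicit false

/-! # The extension operator on `e^{i P} g`, and phases of class `C^m` -/

namespace Pool.Agent.J4.H87.PA

open MeasureTheory Set MvPolynomial Metric
open scoped ENNReal NNReal RealInnerProductSpace
open Pool.Agent.J4.H87.PP

theorem finA (n : ℕ) (q s : ℝ) (hq : 3 < q) (hs : 2 < s * (q - 1)) (hs0 : 0 < s) (hs1 : s ≤ 1) :
    ∃ C : ℝ≥0, ∀ (P : Pol) (V : ℝ) (g : E 2 → ℂ), P.totalDegree ≤ n → 0 ≤ V → Cls V s g →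
      eLpNorm (ext (ball 0 (1 / 2)) (fun x => ex (ev P x) * g x)) (ENNReal.ofReal q) volume ≤
        C * ENNReal.ofReal ((1 + V) ^ (1 - 1 / q)) := by
  obtain ⟨C, hC⟩ := total n q s hq hs hs0 hs1
  refine ⟨C ^ (1 / q), fun P V g hP hV hg => ?_⟩
  have hq0 : 0 < q := by linarith
  have h1 := hC P hP g ⟨hg.meas, hg.bd, hg.supp⟩ V hV hg.md
  have hgi : Integrable g := (Gd.bs ⟨hg.meas, hg.bd, hg.supp⟩).int
  have h2 := tr (U := ball (0 : E 2) (1 / 2)) measurableSet_ball
    (ball_subset_ball (by norm_num)) P g hgi (fun x hx => by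
      by_contra h
      exact hx (by rw [mem_ball_zero_iff]; exact hg.supp x h)) q hq0
  rw [eLpNorm_eq_lintegral_rpow_enorm_toReal (by simpa using hq0) ENNReal.ofReal_ne_top,
    ENNReal.toReal_ofReal hq0.le, h2]
  have h3 : ∫⁻ t : ℝ, ∫⁻ y : E 2, ‖FF (fun x => ex (ev (ph P t) x) * g x) y‖ₑ ^ q ≤
      C * ENNReal.ofReal ((1 + V) ^ (q - 1)) := h1
  refine (ENNReal.rpow_le_rpow h3 (by positivity)).trans ?_
  rw [ENNReal.mul_rpow_of_nonneg _ _ (by positivity), ENNReal.ofReal_rpow_of_nonneg (by positivity)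
    (by positivity), ← Real.rpow_mul (by positivity), ENNReal.coe_rpow_of_nonneg _ (by positivity)]
  have h4 : (q - 1) * (1 / q) = 1 - 1 / q := by field_simp
  rw [h4]

/-- subadditivity of the norm of the extension -/
theorem nsum (q : ℝ) (hq : 1 ≤ q) (ι : Type) (F : Finset ι) (f : ι → E 2 → ℂ)
    (h1 : ∀ i, Measurable (f i)) (h2 : ∀ i x, ‖f i x‖ ≤ 1) :
    eLpNorm (ext (ball 0 (1 / 2)) (fun x => ∑ i ∈ F, f i x)) (ENNReal.ofReal q) volume ≤
      ∑ i ∈ F, eLpNorm (ext (ball 0 (1 / 2)) (f i)) (ENNReal.ofReal q) volume := by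
  have hint : ∀ i, Integrable (f i) (volume.restrict (ball (0 : E 2) (1 / 2))) := by
    intro i
    have : IsFiniteMeasure (volume.restrict (ball (0 : E 2) (1 / 2))) :=
      ⟨by rw [Measure.restrict_apply_univ]; exact measure_ball_lt_top⟩
    exact Integrable.of_bound (h1 i).aestronglyMeasurable 1 (Filter.Eventually.of_forall (h2 i))
  have hsum : ext (ball (0 : E 2) (1 / 2)) (fun x => ∑ i ∈ F, f i x) =
      ∑ i ∈ F, ext (ball (0 : E 2) (1 / 2)) (f i) := by
    funext ξ
    rw [Finset.sum_apply]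
    unfold PP.ext
    rw [← integral_finset_sum]
    · refine integral_congr_ae (Filter.Eventually.of_forall fun x => ?_)
      simp only [Finset.mul_sum]
    · intro i _
      refine (hint i).bdd_mul (c := 1) ?_ ?_
      · refine Continuous.aestronglyMeasurable ?_
        have := tr_Phi_cont
        fun_prop
      · exact Filter.Eventually.of_forall fun x => (tr_norm_exp _).le
  rw [hsum]
  refine eLpNorm_sum_le (fun i _ => ?_) ?_
  · exact (ext_cont (hint i) measurableSet_ball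
      (ball_subset_ball (by norm_num))).aestronglyMeasurable
  · rw [← ENNReal.ofReal_one]
    exact ENNReal.ofReal_le_ofReal hq

theorem ext_eq {U : Set (E 2)} (hU : U ⊆ ball 0 (1 / 2)) (hUm : MeasurableSet U) (f : E 2 → ℂ)
    (h0 : ∀ x, x ∉ U → f x = 0) : ext U f = ext (ball 0 (1 / 2)) f := by
  funext ξ
  unfold PP.ext
  rw [setIntegral_eq_integral_of_forall_compl_eq_zero, setIntegral_eq_integral_of_forall_compl_eq_zero]
  · intro x hx
    rw [h0 x fun h => hx (hU h), mul_zero]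
  · intro x hx
    rw [h0 x hx, mul_zero]

theorem finB (m : ℕ) (hm : 1 ≤ m) (q s : ℝ) (hq : 3 < q) (hs : 2 < s * (q - 1)) (hs1 : s ≤ 1) :
    ∃ C : ℝ≥0, ∀ (L M V : ℝ) (U : Set (E 2)) (ψ : E 2 → ℝ) (g : E 2 → ℂ), 1 ≤ L →
      ContDiff ℝ m ψ → (∀ x, ‖x‖ ≤ 1 → ‖iteratedFDeriv ℝ m ψ x‖ ≤ L) →
      MeasurableSet U → U ⊆ ball 0 (1 / 2) → Measurable g → (∀ x, x ∉ U → g x = 0) →
      0 ≤ M → 0 ≤ V → (∀ x, ‖g x‖ ≤ M) →
      (∀ v : E 2, ∫⁻ x, ‖g (x + v) - g x‖ₑ ≤ ENNReal.ofReal (V * ‖v‖ ^ s)) →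
      eLpNorm (ext U (fun x => ex (ψ x) * g x)) (ENNReal.ofReal q) volume ≤
        C * ENNReal.ofReal (L ^ (2 / (m : ℝ)) * (M + V)) := by
  have hs0 : 0 < s := by
    by_contra h
    push Not at h
    nlinarith
  obtain ⟨K, hK⟩ := pb m hm s hs0 hs1
  obtain ⟨C, hC⟩ := finA m q s hq hs hs0 hs1
  refine ⟨K * C, fun L M V U ψ g hL hψ hD hU hUb hgm hg0 hM hV hgb hgv => ?_⟩
  have hsupp : ∀ x, g x ≠ 0 → ‖x‖ < 1 / 2 := fun x hx => by
    rw [← mem_ball_zero_iff]
    exact hUb (by by_contra h; exact hx (hg0 x h))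
  rw [ext_eq hUb hU _ (fun x hx => by rw [hg0 x hx, mul_zero])]
  have hN := hK (fun f => eLpNorm (ext (ball 0 (1 / 2)) f) (ENNReal.ofReal q) volume)
    (fun ι F f h1 h2 _ => nsum q (by linarith) ι F f h1 h2) C
    (fun P V g hP hV hg => (hC P V g hP hV hg).trans (by
      gcongr
      refine Real.rpow_le_self_of_one_le (by linarith) ?_
      have : 0 < 1 / q := by positivity
      linarith))
  rcases hM.eq_or_lt with hM0 | hM0
  · -- `g = 0`
    have hg : g = 0 := by
      funext x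
      have := hgb x
      rw [← hM0] at this
      exact norm_le_zero_iff.1 this
    have : ext (ball 0 (1 / 2)) (fun x => ex (ψ x) * g x) = 0 := by
      funext ξ
      simp [PP.ext, hg]
    rw [this]
    simp
  · have hcls : Cls (V / M) s (fun x => (M : ℂ)⁻¹ * g x) := by
      refine ⟨measurable_const.mul hgm, fun x => ?_, fun x hx => hsupp x (right_ne_zero_of_mul hx),
        fun v => ?_⟩
      · rw [norm_mul, norm_inv, Complex.norm_real, Real.norm_of_nonneg hM, inv_mul_le_iff₀ hM0,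
          mul_one]
        exact hgb x
      · have h1 : ∀ x, ‖(M : ℂ)⁻¹ * g (x + v) - (M : ℂ)⁻¹ * g x‖ₑ =
            ENNReal.ofReal M⁻¹ * ‖g (x + v) - g x‖ₑ := fun x => by
          rw [← mul_sub, enorm_mul]
          congr 1
          rw [← ofReal_norm, norm_inv, Complex.norm_real, Real.norm_of_nonneg hM]
        simp_rw [h1]
        rw [lintegral_const_mul' _ _ ENNReal.ofReal_ne_top]
        refine (mul_le_mul_right (hgv v) _).trans ?_
        rw [← ENNReal.ofReal_mul (by positivity)]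
        refine ENNReal.ofReal_le_ofReal (le_of_eq ?_)
        ring
    have h1 := hN L (V / M) ψ _ hL (by positivity) hψ hD hcls
    have h2 : (ext (ball 0 (1 / 2)) (fun x => ex (ψ x) * g x)) =
        (M : ℂ) • ext (ball 0 (1 / 2)) (fun x => ex (ψ x) * ((M : ℂ)⁻¹ * g x)) := by
      funext ξ
      rw [Pi.smul_apply, smul_eq_mul]
      unfold PP.ext
      rw [← integral_const_mul]
      refine integral_congr_ae (Filter.Eventually.of_forall fun x => ?_)
      simp only
      have : (M : ℂ) ≠ 0 := by exact_mod_cast hM0.ne'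
      field_simp
    rw [h2, eLpNorm_const_smul]
    have h3 : ‖(M : ℂ)‖ₑ = ENNReal.ofReal M := by
      rw [← ofReal_norm, Complex.norm_real, Real.norm_of_nonneg hM]
    rw [h3]
    refine (mul_le_mul_right h1 _).trans (le_of_eq ?_)
    rw [show ENNReal.ofReal M * (K * C * ENNReal.ofReal (L ^ (2 / (m : ℝ)) * (1 + V / M))) =
      K * C * (ENNReal.ofReal M * ENNReal.ofReal (L ^ (2 / (m : ℝ)) * (1 + V / M))) by ring,
      ← ENNReal.ofReal_mul hM]
    push_cast
    congr 2
    field_simp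

end Pool.Agent.J4.H87.PA
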