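import Pool.Agent.J4.H87.PA.Fin1
set_option autoImplicit false

/-! # Countable families of discs -/

namespace Pool.Agent.J4.H87.PA

open MeasureTheory Set MvPolynomial Metric Filter
open scoped ENNReal NNReal RealInnerProductSpace Topology
open Pool.Agent.J4.H87.PP

/-- a disc contained in `B(0, 1/2)` has radius at most `1/2` -/
theorem rad_le {c : E 2} {r : ℝ} (h : ball c r ⊆ ball 0 (1 / 2)) : r ≤ 1 / 2 := by
  by_contra hr
  push Not at hr
  set e : E 2 := EuclideanSpace.single 0 (1 / 2 : ℝ) with he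
  have hn : ‖e‖ = 1 / 2 := by rw [he, PiLp.norm_single]; norm_num
  have h1 : c + e ∈ ball (0 : E 2) (1 / 2) := h (by
    rw [mem_ball, dist_eq_norm, add_sub_cancel_left, hn]; exact hr)
  have h2 : c - e ∈ ball (0 : E 2) (1 / 2) := h (by
    rw [mem_ball, dist_eq_norm, sub_sub_cancel_left, norm_neg, hn]; exact hr)
  rw [mem_ball_zero_iff] at h1 h2
  have h3 : ‖(c + e) - (c - e)‖ ≤ ‖c + e‖ + ‖c - e‖ := norm_sub_le _ _
  have h4 : (c + e) - (c - e) = (2 : ℝ) • e := by rw [two_smul]; abel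
  rw [h4, norm_smul, hn] at h3
  norm_num at h3
  linarith

/-- the dyadic sum over the radii -/
theorem radsum (γ β K : ℝ) (hβ : β < γ) (hK : 0 ≤ K) : ∃ A : ℝ≥0, ∀ r : ℕ → ℝ, (∀ j, 0 ≤ r j) →
    (∀ j, r j ≤ 1 / 2) → (∀ ρ : ℝ, 0 < ρ → {j | ρ < r j}.Finite ∧
      ({j | ρ < r j}.ncard : ℝ) ≤ K * ρ ^ (-β)) →
    ∑' j, (if 0 < r j then ENNReal.ofReal (r j ^ γ) else 0) ≤ A := by
  -- summability of the majorant
  have hlt : (2 : ℝ) ^ (β - γ) < 1 := Real.rpow_lt_one_of_one_lt_of_neg (by norm_num) (by linarith)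
  have hpos : (0 : ℝ) < 2 ^ (β - γ) := by positivity
  have hsum : Summable fun k : ℕ => (K * 2 ^ β * 2 ^ |γ|) * ((2 : ℝ) ^ (β - γ)) ^ k :=
    (summable_geometric_of_lt_one hpos.le hlt).mul_left _
  have hnn : ∀ k : ℕ, 0 ≤ (K * 2 ^ β * 2 ^ |γ|) * ((2 : ℝ) ^ (β - γ)) ^ k := fun k => by positivity
  refine ⟨⟨∑' k : ℕ, (K * 2 ^ β * 2 ^ |γ|) * ((2 : ℝ) ^ (β - γ)) ^ k, tsum_nonneg hnn⟩, ?_⟩
  intro r hr0 hr1 hN
  have key : ∀ j, (if 0 < r j then ENNReal.ofReal (r j ^ γ) else 0) ≤
      ∑' k : ℕ, (if (2 : ℝ) ^ (-((k : ℝ) + 1)) < r j then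
        ENNReal.ofReal (2 ^ |γ| * 2 ^ (-((k : ℝ) * γ))) *
          (if r j ≤ (2 : ℝ) ^ (-(k : ℝ)) then 1 else 0) else 0) := by
    intro j
    split_ifs with hj
    · -- the scale of `r j`
      obtain ⟨k, hk1, hk2⟩ := exists_nat_pow_near (show (1 : ℝ) ≤ (r j)⁻¹ by
        rw [one_le_inv₀ hj]; linarith [hr1 j]) (show (1 : ℝ) < 2 by norm_num)
      have h1 : r j ≤ (2 : ℝ) ^ (-(k : ℝ)) := by
        rw [Real.rpow_neg (by norm_num), Real.rpow_natCast]
        exact (le_inv_comm₀ (by positivity) hj).1 hk1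
      have h2 : (2 : ℝ) ^ (-((k : ℝ) + 1)) < r j := by
        rw [Real.rpow_neg (by norm_num), ← Nat.cast_succ, Real.rpow_natCast]
        exact (inv_lt_comm₀ hj (by positivity)).1 hk2
      refine le_trans ?_ (ENNReal.le_tsum k)
      rw [if_pos h2, if_pos h1, mul_one]
      refine ENNReal.ofReal_le_ofReal ?_
      rcases le_or_gt 0 γ with hγ | hγ
      · calc r j ^ γ ≤ ((2 : ℝ) ^ (-(k : ℝ))) ^ γ := Real.rpow_le_rpow hj.le h1 hγ
          _ = 2 ^ (-((k : ℝ) * γ)) := by rw [← Real.rpow_mul (by norm_num)]; ring_nf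
          _ ≤ _ := le_mul_of_one_le_left (by positivity)
              (Real.one_le_rpow (by norm_num) (abs_nonneg _))
      · calc r j ^ γ ≤ ((2 : ℝ) ^ (-((k : ℝ) + 1))) ^ γ :=
              Real.rpow_le_rpow_of_nonpos (by positivity) h2.le hγ.le
          _ = 2 ^ |γ| * 2 ^ (-((k : ℝ) * γ)) := by
              rw [← Real.rpow_mul (by norm_num), ← Real.rpow_add (by norm_num), abs_of_neg hγ]
              ring_nf
    · exact zero_le
  refine (ENNReal.tsum_le_tsum key).trans ?_
  rw [ENNReal.tsum_comm]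
  have hk : ∀ k : ℕ, ∑' j, (if (2 : ℝ) ^ (-((k : ℝ) + 1)) < r j then
        ENNReal.ofReal (2 ^ |γ| * 2 ^ (-((k : ℝ) * γ))) *
          (if r j ≤ (2 : ℝ) ^ (-(k : ℝ)) then (1 : ℝ≥0∞) else 0) else 0) ≤
      ENNReal.ofReal ((K * 2 ^ β * 2 ^ |γ|) * ((2 : ℝ) ^ (β - γ)) ^ k) := by
    intro k
    obtain ⟨hf, hc⟩ := hN ((2 : ℝ) ^ (-((k : ℝ) + 1))) (by positivity)
    rw [tsum_eq_sum (s := hf.toFinset) (fun j hj => by
      rw [if_neg]; simpa using hj)]
    have h1 : ∀ j ∈ hf.toFinset, (if (2 : ℝ) ^ (-((k : ℝ) + 1)) < r j then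
        ENNReal.ofReal (2 ^ |γ| * 2 ^ (-((k : ℝ) * γ))) *
          (if r j ≤ (2 : ℝ) ^ (-(k : ℝ)) then (1 : ℝ≥0∞) else 0) else 0) ≤
        ENNReal.ofReal (2 ^ |γ| * 2 ^ (-((k : ℝ) * γ))) := by
      intro j _
      split_ifs
      · rw [mul_one]
      · rw [mul_zero]; exact zero_le
      · exact zero_le
    refine (Finset.sum_le_sum h1).trans ?_
    rw [Finset.sum_const, nsmul_eq_mul, ← Set.ncard_eq_toFinset_card _ hf, ← ENNReal.ofReal_natCast,
      ← ENNReal.ofReal_mul (by positivity)]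
    refine ENNReal.ofReal_le_ofReal ?_
    refine (mul_le_mul_of_nonneg_right hc (by positivity)).trans (le_of_eq ?_)
    have e1 : ((2 : ℝ) ^ (-((k : ℝ) + 1))) ^ (-β) = 2 ^ β * 2 ^ ((k : ℝ) * β) := by
      rw [← Real.rpow_mul (by norm_num), ← Real.rpow_add (by norm_num)]
      ring_nf
    have e2 : ((2 : ℝ) ^ (β - γ)) ^ k = 2 ^ ((k : ℝ) * β) * 2 ^ (-((k : ℝ) * γ)) := by
      rw [← Real.rpow_natCast, ← Real.rpow_mul (by norm_num), ← Real.rpow_add (by norm_num)]
      ring_nf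
    rw [e1, e2]
    ring
  refine (ENNReal.tsum_le_tsum hk).trans ?_
  rw [← ENNReal.ofReal_tsum_of_nonneg hnn hsum, ENNReal.ofReal,
    Real.toNNReal_of_nonneg (tsum_nonneg hnn)]
  exact le_rfl

/-- Hölder's inequality for series -/
theorem holder_tsum (a b : ℕ → ℝ≥0∞) {p q : ℝ} (h : p.HolderConjugate q) :
    ∑' j, a j * b j ≤ (∑' j, a j ^ p) ^ (1 / p) * (∑' j, b j ^ q) ^ (1 / q) := by
  have := ENNReal.lintegral_mul_le_Lp_mul_Lq (Measure.count : Measure ℕ) h
    (f := a) (g := b) (measurable_of_countable _).aemeasurable (measurable_of_countable _).aemeasurable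
  simpa [lintegral_count] using this

theorem ext_sub {f : E 2 → ℂ} {g : E 2 → ℂ} (hf : IntegrableOn f (ball (0 : E 2) (1 / 2)))
    (hg : IntegrableOn g (ball (0 : E 2) (1 / 2))) (ξ : E 3) :
    ext (ball 0 (1 / 2)) f ξ - ext (ball 0 (1 / 2)) g ξ = ext (ball 0 (1 / 2)) (fun x => f x - g x) ξ := by
  have hb : ∀ f : E 2 → ℂ, IntegrableOn f (ball (0 : E 2) (1 / 2)) →
      IntegrableOn (fun x => Complex.exp (-((⟪Phi x, ξ⟫ : ℝ) : ℂ) * Complex.I) * f x)
        (ball (0 : E 2) (1 / 2)) := by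
    intro f hf
    refine Integrable.bdd_mul (c := 1) hf ?_ ?_
    · refine Continuous.aestronglyMeasurable ?_
      have := tr_Phi_cont
      fun_prop
    · exact Filter.Eventually.of_forall fun x => (tr_norm_exp _).le
  unfold PP.ext
  rw [← integral_sub (hb f hf) (hb g hg)]
  refine integral_congr_ae (Filter.Eventually.of_forall fun x => ?_)
  simp only
  ring

/-- continuity from above of the extension -/
theorem ext_tendsto {f : E 2 → ℂ} (hf : IntegrableOn f (ball (0 : E 2) (1 / 2)))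
    (hm : Measurable f) (A : ℕ → Set (E 2)) (hA : ∀ n, MeasurableSet (A n)) (hmono : Monotone A)
    (h0 : ∀ x, (∀ n, x ∉ A n) → f x = 0) (ξ : E 3) :
    Tendsto (fun n => ext (ball 0 (1 / 2)) ((A n).indicator f) ξ) atTop
      (𝓝 (ext (ball 0 (1 / 2)) f ξ)) := by
  unfold PP.ext
  refine tendsto_integral_of_dominated_convergence (fun x => ‖f x‖) (fun n => ?_) hf.norm
    (fun n => ?_) ?_
  · refine AEStronglyMeasurable.mul ?_ (hm.indicator (hA n)).aestronglyMeasurable
    refine Continuous.aestronglyMeasurable ?_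
    have := tr_Phi_cont
    fun_prop
  · refine Filter.Eventually.of_forall fun x => ?_
    rw [norm_mul, tr_norm_exp, one_mul]
    exact norm_indicator_le_norm_self _ _
  · refine Filter.Eventually.of_forall fun x => ?_
    refine Tendsto.const_mul _ ?_
    by_cases hx : ∃ n, x ∈ A n
    · obtain ⟨n, hn⟩ := hx
      refine tendsto_const_nhds.congr' ?_
      filter_upwards [eventually_ge_atTop n] with k hk
      rw [indicator_of_mem (hmono hk hn)]
    · push Not at hx
      refine tendsto_const_nhds.congr' ?_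
      filter_upwards with k
      rw [indicator_of_notMem (hx k), h0 x hx]

/-- subadditivity of the norm of the extension -/
theorem nsum' (q : ℝ) (hq : 1 ≤ q) (ι : Type) (F : Finset ι) (f : ι → E 2 → ℂ)
    (hint : ∀ i, IntegrableOn (f i) (ball (0 : E 2) (1 / 2))) :
    eLpNorm (ext (ball 0 (1 / 2)) (fun x => ∑ i ∈ F, f i x)) (ENNReal.ofReal q) volume ≤
      ∑ i ∈ F, eLpNorm (ext (ball 0 (1 / 2)) (f i)) (ENNReal.ofReal q) volume := by
  have hsum : ext (ball (0 : E 2) (1 / 2)) (fun x => ∑ i ∈ F, f i x) =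
      ∑ i ∈ F, ext (ball (0 : E 2) (1 / 2)) (f i) := by
    funext ξ
    rw [Finset.sum_apply]
    unfold PP.ext
    rw [← integral_finsetSum]
    · refine integral_congr_ae (Filter.Eventually.of_forall fun x => ?_)
      simp only [Finset.mul_sum]
    · intro i _
      refine Integrable.bdd_mul (c := 1) (hint i) ?_ ?_
      · refine Continuous.aestronglyMeasurable ?_
        have := tr_Phi_cont
        fun_prop
      · exact Filter.Eventually.of_forall fun x => (tr_norm_exp _).le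
  rw [hsum]
  refine eLpNorm_sum_le (fun i _ => ?_) ?_
  · exact (ext_cont (hint i) measurableSet_ball
      (ball_subset_ball (by norm_num))).aestronglyMeasurable
  · rw [← ENNReal.ofReal_one]
    exact ENNReal.ofReal_le_ofReal hq

theorem sumup (q β K : ℝ) (hq : 3 < q) (hβ : β * (q - 1) < 2 * q - 6) (hK : 0 ≤ K) (B : ℝ≥0) :
    ∃ C : ℝ≥0, ∀ (U : Set (E 2)) (f : E 2 → ℂ) (c : ℕ → E 2) (r : ℕ → ℝ) (X : ℕ → ℝ≥0∞),
      MeasurableSet U → U ⊆ ball 0 (1 / 2) → Measurable f → Integrable f → (∀ j, 0 ≤ r j) →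
      (∀ j, ball (c j) (r j) ⊆ U) →
      (Pairwise fun i j => Disjoint (ball (c i) (r i)) (ball (c j) (r j))) →
      (∀ x, (∀ j, x ∉ ball (c j) (r j)) → f x = 0) →
      (∀ ρ : ℝ, 0 < ρ → {j | ρ < r j}.Finite ∧ ({j | ρ < r j}.ncard : ℝ) ≤ K * ρ ^ (-β)) →
      (∀ j, 0 < r j → eLpNorm (ext (ball 0 (1 / 2)) ((ball (c j) (r j)).indicator f))
          (ENNReal.ofReal q) volume ≤ B * ENNReal.ofReal (r j ^ ((2 * q - 6) / q)) * X j) →
      eLpNorm (ext U f) (ENNReal.ofReal q) volume ≤ C * (∑' j, X j ^ q) ^ (1 / q) := by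
  have hq0 : 0 < q := by linarith
  have hq1 : 0 < q - 1 := by linarith
  obtain ⟨A, hA⟩ := radsum ((2 * q - 6) / (q - 1)) β K (by rw [lt_div_iff₀ hq1]; exact hβ) hK
  refine ⟨B * A ^ ((q - 1) / q), ?_⟩
  intro U f c r X hU hUb hf hint hr0 hb hd h0 hN hB
  have hr1 : ∀ j, r j ≤ 1 / 2 := fun j => rad_le ((hb j).trans hUb)
  have hfU : ∀ x, x ∉ U → f x = 0 := fun x hx => h0 x fun j hj => hx (hb j hj)
  rw [ext_eq hUb hU f hfU]
  -- partial unions
  set D : ℕ → Set (E 2) := fun j => ball (c j) (r j) with hD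
  set S : ℕ → Set (E 2) := fun n => ⋃ j ∈ Finset.range n, D j with hS
  have hSm : ∀ n, MeasurableSet (S n) := fun n =>
    Finset.measurableSet_biUnion _ fun j _ => measurableSet_ball
  have hSmono : Monotone S := by
    intro a b hab x hx
    simp only [hS, Finset.mem_range, mem_iUnion, exists_prop] at hx ⊢
    obtain ⟨j, hj, hx⟩ := hx
    exact ⟨j, hj.trans_le hab, hx⟩
  have hlim : ∀ ξ, Tendsto (fun n => ext (ball 0 (1 / 2)) ((S n).indicator f) ξ) atTop
      (𝓝 (ext (ball 0 (1 / 2)) f ξ)) := fun ξ => by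
    refine ext_tendsto hint.integrableOn hf S hSm hSmono (fun x hx => h0 x fun j hj => ?_) ξ
    refine hx (j + 1) ?_
    simp only [hS, Finset.mem_range, mem_iUnion, exists_prop]
    exact ⟨j, Nat.lt_succ_self j, hj⟩
  have hnorm : ∀ n, eLpNorm (ext (ball 0 (1 / 2)) ((S n).indicator f)) (ENNReal.ofReal q) volume ≤
      ∑' j, (if 0 < r j then B * ENNReal.ofReal (r j ^ ((2 * q - 6) / q)) else 0) *
        X j := by
    intro n
    have h1 : (S n).indicator f = fun x => ∑ j ∈ Finset.range n, (D j).indicator f x := by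
      funext x
      exact Finset.indicator_biUnion_apply _ _ (fun i _ j _ hij => hd hij) x
    rw [h1]
    refine (nsum' q (by linarith) ℕ (Finset.range n) (fun j => (D j).indicator f)
      (fun j => (hint.indicator measurableSet_ball).integrableOn)).trans ?_
    refine (Finset.sum_le_sum fun j _ => ?_).trans (ENNReal.sum_le_tsum (Finset.range n))
    split_ifs with hj
    · exact hB j hj
    · have hj0 : D j = ∅ := by
        rw [hD]
        exact ball_eq_empty.2 (not_lt.1 hj)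
      rw [hj0]
      have : ext (ball 0 (1 / 2)) ((∅ : Set (E 2)).indicator f) = 0 := by
        funext ξ
        simp [PP.ext]
      rw [this]
      simp
  have hall : eLpNorm (ext (ball 0 (1 / 2)) f) (ENNReal.ofReal q) volume ≤
      ∑' j, (if 0 < r j then B * ENNReal.ofReal (r j ^ ((2 * q - 6) / q)) else 0) *
        X j := by
    refine (Lp.eLpNorm_lim_le_liminf_eLpNorm (fun n => ?_) _
      (Filter.Eventually.of_forall hlim)).trans ?_
    · exact (ext_cont (hint.indicator (hSm n)).integrableOn measurableSet_ball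
        (ball_subset_ball (by norm_num))).aestronglyMeasurable
    · exact liminf_le_of_le (by isBoundedDefault) fun b hb => by
        obtain ⟨n, hn⟩ := hb.exists
        exact hn.trans (hnorm n)
  refine hall.trans ?_
  have hconj : (q / (q - 1)).HolderConjugate q := by
    rw [Real.holderConjugate_iff]
    constructor
    · rw [lt_div_iff₀ hq1]; linarith
    · field_simp
      ring
  refine (holder_tsum _ _ hconj).trans ?_
  -- the two factors
  have hf1 : (∑' j, (if 0 < r j then B * ENNReal.ofReal (r j ^ ((2 * q - 6) / q)) else 0) ^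
      (q / (q - 1))) ^ (1 / (q / (q - 1))) ≤ B * (A : ℝ≥0∞) ^ ((q - 1) / q) := by
    have h1 : ∀ j, (if 0 < r j then B * ENNReal.ofReal (r j ^ ((2 * q - 6) / q)) else 0) ^
        (q / (q - 1)) = (B : ℝ≥0∞) ^ (q / (q - 1)) *
          (if 0 < r j then ENNReal.ofReal (r j ^ ((2 * q - 6) / (q - 1))) else 0) := by
      intro j
      split_ifs with hj
      · rw [ENNReal.mul_rpow_of_nonneg _ _ (by positivity),
          ENNReal.ofReal_rpow_of_nonneg (by positivity) (by positivity), ← Real.rpow_mul hj.le]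
        congr 3
        field_simp
      · rw [ENNReal.zero_rpow_of_pos (by positivity), mul_zero]
    simp_rw [h1]
    rw [ENNReal.tsum_mul_left, ENNReal.mul_rpow_of_nonneg _ _ (by positivity), ← ENNReal.rpow_mul]
    have e1 : q / (q - 1) * (1 / (q / (q - 1))) = 1 := by field_simp
    have e2 : 1 / (q / (q - 1)) = (q - 1) / q := by field_simp
    rw [e1, ENNReal.rpow_one, e2]
    gcongr
    exact hA r hr0 hr1 hN
  refine (mul_le_mul_left hf1 _).trans (le_of_eq ?_)
  rw [ENNReal.coe_mul, ENNReal.coe_rpow_of_nonneg _ (by positivity)]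

/-- the pieces of an `L^q` function -/
theorem pieces {q : ℝ} (hq : 1 ≤ q) {U : Set (E 2)} {f : E 2 → ℂ} {c : ℕ → E 2} {r : ℕ → ℝ}
    (hb : ∀ j, ball (c j) (r j) ⊆ U)
    (hd : Pairwise fun i j => Disjoint (ball (c i) (r i)) (ball (c j) (r j))) :
    (∑' j, eLpNorm ((ball (c j) (r j)).indicator f) (ENNReal.ofReal q) volume ^ q) ^ (1 / q) ≤
      eLpNorm f (ENNReal.ofReal q) (volume.restrict U) := by
  have hq0 : 0 < q := by linarith
  have hq0' : ENNReal.ofReal q ≠ 0 := by simpa using hq0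
  have hqt : (ENNReal.ofReal q).toReal = q := ENNReal.toReal_ofReal hq0.le
  rw [eLpNorm_eq_lintegral_rpow_enorm_toReal (f := f) hq0' ENNReal.ofReal_ne_top, hqt]
  refine ENNReal.rpow_le_rpow ?_ (by positivity)
  have h1 : ∀ j, eLpNorm ((ball (c j) (r j)).indicator f) (ENNReal.ofReal q) volume ^ q =
      ∫⁻ x in ball (c j) (r j), ‖f x‖ₑ ^ q := by
    intro j
    rw [eLpNorm_indicator_eq_eLpNorm_restrict measurableSet_ball,
      eLpNorm_eq_lintegral_rpow_enorm_toReal hq0' ENNReal.ofReal_ne_top, hqt, ← ENNReal.rpow_mul,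
      one_div_mul_cancel hq0.ne', ENNReal.rpow_one]
  simp_rw [h1]
  rw [← lintegral_iUnion (fun j => measurableSet_ball) hd]
  exact lintegral_mono_set (iUnion_subset hb)

/-- the pieces of a function which vanishes off the discs -/
theorem pieces_le {q : ℝ} (hq : 1 ≤ q) {U : Set (E 2)} (hU : MeasurableSet U) {f : E 2 → ℂ}
    {c : ℕ → E 2} {r : ℕ → ℝ} (h0 : ∀ x, (∀ j, x ∉ ball (c j) (r j)) → f x = 0)
    (hd : Pairwise fun i j => Disjoint (ball (c i) (r i)) (ball (c j) (r j))) :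
    ∫⁻ x in U, ‖f x‖ₑ ^ q ≤ ∑' j, ∫⁻ x in ball (c j) (r j), ‖f x‖ₑ ^ q := by
  have hq0 : 0 < q := by linarith
  rw [← lintegral_iUnion (fun j => measurableSet_ball) hd]
  rw [← lintegral_indicator hU, ← lintegral_indicator (MeasurableSet.iUnion fun j => measurableSet_ball)]
  refine lintegral_mono fun x => ?_
  by_cases hx : x ∈ ⋃ j, ball (c j) (r j)
  · rw [indicator_of_mem hx]
    exact indicator_le_self _ _ _
  · have : f x = 0 := h0 x fun j hj => hx (mem_iUnion.2 ⟨j, hj⟩)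
    by_cases hxU : x ∈ U
    · rw [indicator_of_mem hxU, this]
      simp [hq0]
    · rw [indicator_of_notMem hxU]
      exact zero_le

/-- an `L^q` function on `U` is integrable -/
theorem int_of_fin {q : ℝ} (hq : 1 ≤ q) {U : Set (E 2)} (hUb : U ⊆ ball 0 (1 / 2)) {f : E 2 → ℂ}
    (hf : Measurable f) (hfU : ∀ x, x ∉ U → f x = 0)
    (hfin : eLpNorm f (ENNReal.ofReal q) (volume.restrict U) ≠ ∞) : Integrable f := by
  have hmL : MemLp f (ENNReal.ofReal q) (volume.restrict U) := ⟨hf.aestronglyMeasurable, hfin.lt_top⟩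
  have hfmU : IsFiniteMeasure (volume.restrict U) :=
    ⟨by rw [Measure.restrict_apply_univ]; exact (measure_mono hUb).trans_lt measure_ball_lt_top⟩
  have hintU : IntegrableOn f U := hmL.integrable (by
    rw [← ENNReal.ofReal_one]; exact ENNReal.ofReal_le_ofReal (by linarith))
  rw [← integrableOn_iff_integrable_of_support_subset (s := U)]
  · exact hintU
  · intro x hx
    by_contra h
    exact hx (hfU x h)

end Pool.Agent.J4.H87.PA
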