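import Pool.Agent.J4.H87.PA.Fin2
import Pool.Agent.J4.H87.PP.Dl1
import Pool.Agent.J4.H87.PP.Dl2
set_option autoImplicit false

/-! # One disc of any size -/

namespace Pool.Agent.J4.H87.PA

open MeasureTheory Set MvPolynomial Metric Filter
open scoped ENNReal NNReal RealInnerProductSpace Topology
open Pool.Agent.J4.H87.PP

theorem ext_zero_off {c : E 2} {r : ℝ} (hr : 0 < r) {f : E 2 → ℂ}
    (h0 : ∀ x, x ∉ ball c r → f x = 0) (u : E 2) (hu : u ∉ ball (0 : E 2) (1 / 2)) :
    f (c + (2 * r) • u) = 0 := by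
  refine h0 _ ?_
  rw [mem_ball_zero_iff, not_lt] at hu
  rw [mem_ball, dist_eq_norm, add_sub_cancel_left, norm_smul, Real.norm_of_nonneg (by positivity),
    not_lt]
  nlinarith

/-- parabolic scaling -/
theorem scale {q : ℝ} (hq : 0 < q) {c : E 2} {r : ℝ} (hr : 0 < r) (hb : ball c r ⊆ ball 0 (1 / 2))
    {f : E 2 → ℂ} (hfi : Integrable f) (h0 : ∀ x, x ∉ ball c r → f x = 0) :
    eLpNorm (ext (ball 0 (1 / 2)) f) (ENNReal.ofReal q) volume =
      ENNReal.ofReal ((2 * r) ^ ((2 * q - 4) / q)) *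
        eLpNorm (ext (ball 0 (1 / 2)) (fun u => f (c + (2 * r) • u))) (ENNReal.ofReal q) volume := by
  have hq0' : ENNReal.ofReal q ≠ 0 := by simpa using hq
  have hqt : (ENNReal.ofReal q).toReal = q := ENNReal.toReal_ofReal hq.le
  have hFi : Integrable (fun u => f (c + (2 * r) • u)) :=
    (hfi.comp_add_left c).comp_smul (by positivity)
  have hz : ∀ x : E 2, ex (ev 0 x) = 1 := fun x => by simp [ev, ex]
  have h1 := tr (U := ball (0 : E 2) (1 / 2)) measurableSet_ball
    (ball_subset_ball (by norm_num)) 0 f hfi (fun x hx => h0 x fun h => hx (hb h)) q hq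
  have h2 := tr (U := ball (0 : E 2) (1 / 2)) measurableSet_ball
    (ball_subset_ball (by norm_num)) 0 _ hFi (fun x hx => ext_zero_off hr h0 x hx) q hq
  have h3 := dl2_eq q hq 0 0 c r hr (fun u => by simp [ev]) f
  simp only [hz, one_mul] at h1 h2
  rw [eLpNorm_eq_lintegral_rpow_enorm_toReal hq0' ENNReal.ofReal_ne_top,
    eLpNorm_eq_lintegral_rpow_enorm_toReal hq0' ENNReal.ofReal_ne_top, hqt, h1, h2, h3,
    ENNReal.mul_rpow_of_nonneg _ _ (by positivity),
    ENNReal.ofReal_rpow_of_nonneg (by positivity) (by positivity), ← Real.rpow_mul (by positivity)]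
  congr 3
  ring

/-- scaling of the modulus -/
theorem mod_scale {c : E 2} {r : ℝ} (hr : 0 < r) {g : E 2 → ℂ} {W s : ℝ}
    (h : ∀ v : E 2, ∫⁻ x, ‖g (x + v) - g x‖ₑ ≤ ENNReal.ofReal (W * ‖v‖ ^ s)) (v : E 2) :
    ∫⁻ u, ‖g (c + (2 * r) • (u + v)) - g (c + (2 * r) • u)‖ₑ ≤
      ENNReal.ofReal ((2 * r) ^ (s - 2) * W * ‖v‖ ^ s) := by
  have h1 : ∫⁻ u, ‖g (c + (2 * r) • (u + v)) - g (c + (2 * r) • u)‖ₑ =
      ∫⁻ u, (fun x : E 2 => ‖g (c + (x + (2 * r) • v)) - g (c + x)‖ₑ) ((2 * r) • u) := by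
    refine lintegral_congr fun u => ?_
    simp only [smul_add]
  rw [h1, Dl2.lsm (2 * r) (by positivity)
    (fun x : E 2 => ‖g (c + (x + (2 * r) • v)) - g (c + x)‖ₑ)]
  have h2 : ∫⁻ x : E 2, ‖g (c + (x + (2 * r) • v)) - g (c + x)‖ₑ =
      ∫⁻ x : E 2, ‖g (x + (2 * r) • v) - g x‖ₑ := by
    have := lintegral_add_left_eq_self (μ := (volume : Measure (E 2)))
      (fun x => ‖g (x + (2 * r) • v) - g x‖ₑ) c
    rw [← this]
    refine lintegral_congr fun x => ?_
    rw [add_assoc]
  rw [h2]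
  refine (mul_le_mul_right (h _) _).trans ?_
  rw [← ENNReal.ofReal_mul (by positivity)]
  refine ENNReal.ofReal_le_ofReal (le_of_eq ?_)
  rw [norm_smul, Real.norm_of_nonneg (by positivity), Real.mul_rpow (by positivity) (norm_nonneg _),
    Real.rpow_sub (by positivity)]
  rw [show ((2 * r) ^ (2 : ℝ) : ℝ) = (2 * r) ^ 2 by norm_cast]
  ring

/-- the derivatives of order `m` of `ψ (c + 2 r u)` -/
theorem deriv_scale {m : ℕ} {c : E 2} {r : ℝ} (hr : 0 < r) {ψ : E 2 → ℝ} (hψ : ContDiff ℝ m ψ)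
    {K : ℝ} (h : ∀ x, ‖x - c‖ ≤ 2 * r → ‖iteratedFDeriv ℝ m ψ x‖ ≤ K * r ^ (-(m : ℝ))) :
    ContDiff ℝ m (fun u : E 2 => ψ (c + (2 * r) • u)) ∧
      ∀ u : E 2, ‖u‖ ≤ 1 → ‖iteratedFDeriv ℝ m (fun u : E 2 => ψ (c + (2 * r) • u)) u‖ ≤
        2 ^ m * K := by
  have hψ1 : ContDiff ℝ m (fun x => ψ (c + x)) := hψ.comp (contDiff_const.add contDiff_id)
  constructor
  · exact hψ.comp (contDiff_const.add (contDiff_id.const_smul (2 * r)))
  · intro u hu
    set g : E 2 →L[ℝ] E 2 := (2 * r) • ContinuousLinearMap.id ℝ (E 2) with hg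
    have h1 : (fun u : E 2 => ψ (c + (2 * r) • u)) = (fun x => ψ (c + x)) ∘ g := by
      funext u
      simp [hg]
    have h2 := g.iteratedFDeriv_comp_right hψ1 u (i := m) le_rfl
    have h3 : g u = (2 * r) • u := by simp [hg]
    have hgn : ‖g‖ ≤ 2 * r := by
      rw [hg, norm_smul, Real.norm_of_nonneg (by positivity)]
      exact mul_le_of_le_one_right (by positivity) ContinuousLinearMap.norm_id_le
    rw [h1, h2, h3]
    have h4 : iteratedFDeriv ℝ m (fun x => ψ (c + x)) ((2 * r) • u) =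
        iteratedFDeriv ℝ m ψ (c + (2 * r) • u) := iteratedFDeriv_comp_add_left m c _
    rw [h4]
    refine (ContinuousMultilinearMap.norm_compContinuousLinearMap_le _ _).trans ?_
    have h5 : ‖iteratedFDeriv ℝ m ψ (c + (2 * r) • u)‖ ≤ K * r ^ (-(m : ℝ)) := by
      refine h _ ?_
      rw [add_sub_cancel_left, norm_smul, Real.norm_of_nonneg (by positivity)]
      exact mul_le_of_le_one_right (by positivity) hu
    have h6 : ∏ _i : Fin m, ‖g‖ ≤ (2 * r) ^ m := by
      rw [Finset.prod_const, Finset.card_univ, Fintype.card_fin]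
      exact pow_le_pow_left₀ (norm_nonneg _) hgn m
    calc _ ≤ (K * r ^ (-(m : ℝ))) * (2 * r) ^ m :=
          mul_le_mul h5 h6 (Finset.prod_nonneg fun _ _ => norm_nonneg _)
            ((norm_nonneg _).trans h5)
      _ = 2 ^ m * K := by
          rw [mul_pow, Real.rpow_neg hr.le, Real.rpow_natCast]
          field_simp

/-- the bound for one disc -/
theorem pieceA (m : ℕ) (hm : 1 ≤ m) (q s : ℝ) (hq : 3 < q) (hs : 2 < s * (q - 1)) (hs1 : s ≤ 1) :
    ∃ B : ℝ≥0, ∀ (c : E 2) (r L M : ℝ) (ψ : E 2 → ℝ) (g : E 2 → ℂ), 0 < r →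
      ball c r ⊆ ball 0 (1 / 2) → 1 ≤ L → ContDiff ℝ m ψ →
      (∀ x, ‖x - c‖ ≤ 2 * r → ‖iteratedFDeriv ℝ m ψ x‖ ≤ L * r ^ (-(m : ℝ))) →
      Measurable g → (∀ x, x ∉ ball c r → g x = 0) → 0 ≤ M → (∀ x, ‖g x‖ ≤ M) →
      (∀ v : E 2, ∫⁻ x, ‖g (x + v) - g x‖ₑ ≤ ENNReal.ofReal (M * r ^ (2 - s) * ‖v‖ ^ s)) →
      eLpNorm (ext (ball 0 (1 / 2)) (fun x => ex (ψ x) * g x)) (ENNReal.ofReal q) volume ≤
        B * ENNReal.ofReal (r ^ ((2 * q - 6) / q)) *
          ENNReal.ofReal (r ^ (2 / q) * (L ^ (2 / (m : ℝ)) * M)) := by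
  obtain ⟨C, hC⟩ := finB m hm q s hq hs hs1
  have hq0 : 0 < q := by linarith
  refine ⟨C * Real.toNNReal (2 ^ ((2 * q - 4) / q) * ((2 ^ m) ^ (2 / (m : ℝ)) * 2)), ?_⟩
  intro c r L M ψ g hr hb hL hψ hD hgm hg0 hM hgb hgv
  have hexm : Measurable fun x => ex (ψ x) := by
    have := hψ.continuous
    unfold ex
    fun_prop
  have hgi : Integrable g := by
    rw [← integrableOn_iff_integrable_of_support_subset (s := ball c r)]
    · exact Measure.integrableOn_of_bounded measure_ball_lt_top.ne hgm.aestronglyMeasurable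
        (Filter.Eventually.of_forall hgb)
    · intro x hx
      by_contra h
      exact hx (hg0 x h)
  have hfi : Integrable fun x => ex (ψ x) * g x :=
    hgi.bdd_mul (c := 1) hexm.aestronglyMeasurable (Filter.Eventually.of_forall fun x =>
      (tr_ex_norm _).le)
  rw [scale hq0 hr hb hfi (fun x hx => by rw [hg0 x hx, mul_zero])]
  obtain ⟨hψ', hD'⟩ := deriv_scale hr hψ hD
  have hL1 : 1 ≤ 2 ^ m * L := one_le_mul_of_one_le_of_one_le (one_le_pow₀ (by norm_num)) hL
  have h1 := hC (2 ^ m * L) M ((2 * r) ^ (s - 2) * (M * r ^ (2 - s))) (ball 0 (1 / 2))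
    (fun u => ψ (c + (2 * r) • u)) (fun u => g (c + (2 * r) • u)) hL1 hψ' hD' measurableSet_ball
    subset_rfl (hgm.comp (by fun_prop)) (fun u hu => ext_zero_off hr hg0 u hu) hM (by positivity)
    (fun u => hgb _) (fun v => mod_scale hr hgv v)
  -- the constants
  have h2 : (2 * r) ^ (s - 2) * (M * r ^ (2 - s)) ≤ M := by
    have e1 : (2 * r) ^ (s - 2) * (M * r ^ (2 - s)) = 2 ^ (s - 2) * M := by
      rw [Real.mul_rpow (by norm_num) hr.le]
      have : r ^ (s - 2) * r ^ (2 - s) = 1 := by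
        rw [← Real.rpow_add hr]; simp
      calc _ = 2 ^ (s - 2) * M * (r ^ (s - 2) * r ^ (2 - s)) := by ring
        _ = _ := by rw [this, mul_one]
    rw [e1]
    refine mul_le_of_le_one_left hM ?_
    exact Real.rpow_le_one_of_one_le_of_nonpos (by norm_num) (by linarith)
  have h3 : (2 ^ m * L) ^ (2 / (m : ℝ)) * (M + (2 * r) ^ (s - 2) * (M * r ^ (2 - s))) ≤
      ((2 ^ m) ^ (2 / (m : ℝ)) * 2) * (L ^ (2 / (m : ℝ)) * M) := by
    rw [Real.mul_rpow (by positivity) (by linarith)]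
    have : (2 ^ m : ℝ) ^ (2 / (m : ℝ)) * L ^ (2 / (m : ℝ)) *
        (M + (2 * r) ^ (s - 2) * (M * r ^ (2 - s))) ≤
        (2 ^ m : ℝ) ^ (2 / (m : ℝ)) * L ^ (2 / (m : ℝ)) * (2 * M) :=
      mul_le_mul_of_nonneg_left (by linarith) (by positivity)
    refine this.trans (le_of_eq ?_)
    ring
  have h5 : (2 * r) ^ ((2 * q - 4) / q) =
      2 ^ ((2 * q - 4) / q) * (r ^ ((2 * q - 6) / q) * r ^ (2 / q)) := by
    rw [Real.mul_rpow (by norm_num) hr.le, ← Real.rpow_add hr]
    congr 2
    field_simp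
    ring
  calc _ ≤ ENNReal.ofReal ((2 * r) ^ ((2 * q - 4) / q)) *
        (C * ENNReal.ofReal (((2 ^ m) ^ (2 / (m : ℝ)) * 2) * (L ^ (2 / (m : ℝ)) * M))) := by
        gcongr
        exact h1.trans (by gcongr)
    _ = _ := by
        rw [h5, ENNReal.coe_mul, ← ENNReal.ofReal]
        rw [ENNReal.ofReal_mul (p := 2 ^ ((2 * q - 4) / q)) (by positivity),
          ENNReal.ofReal_mul (p := r ^ ((2 * q - 6) / q)) (by positivity),
          ENNReal.ofReal_mul (p := (2 ^ m) ^ (2 / (m : ℝ)) * 2) (by positivity),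
          ENNReal.ofReal_mul (p := 2 ^ ((2 * q - 4) / q)) (by positivity),
          ENNReal.ofReal_mul (p := r ^ (2 / q)) (by positivity)]
        ring

/-- from amplitudes bounded by `1` to amplitudes bounded by `M` -/
theorem homog {q s : ℝ} (w : E 2 → ℂ) (C : ℝ≥0∞)
    (hN : ∀ (V : ℝ) (g : E 2 → ℂ), 0 ≤ V → Cls V s g →
      eLpNorm (ext (ball 0 (1 / 2)) (fun x => w x * g x)) (ENNReal.ofReal q) volume ≤
        C * ENNReal.ofReal (1 + V)) (M V : ℝ) (g : E 2 → ℂ) (hM : 0 ≤ M) (hV : 0 ≤ V)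
    (hgm : Measurable g) (hsupp : ∀ x, g x ≠ 0 → ‖x‖ < 1 / 2) (hgb : ∀ x, ‖g x‖ ≤ M)
    (hgv : ∀ v : E 2, ∫⁻ x, ‖g (x + v) - g x‖ₑ ≤ ENNReal.ofReal (V * ‖v‖ ^ s)) :
    eLpNorm (ext (ball 0 (1 / 2)) (fun x => w x * g x)) (ENNReal.ofReal q) volume ≤
      C * ENNReal.ofReal (M + V) := by
  rcases hM.eq_or_lt with hM0 | hM0
  · have hg : g = 0 := by
      funext x
      have := hgb x
      rw [← hM0] at this
      exact norm_le_zero_iff.1 this
    have : ext (ball 0 (1 / 2)) (fun x => w x * g x) = 0 := by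
      funext ξ
      simp [PP.ext, hg]
    rw [this]
    simp
  · have hcls : Cls (V / M) s (fun x => (M : ℂ)⁻¹ * g x) := by
      refine ⟨measurable_const.mul hgm, fun x => ?_, fun x hx => hsupp x (right_ne_zero_of_mul hx),
        fun v => ?_⟩
      · rw [norm_mul, norm_inv, Complex.norm_real, Real.norm_of_nonneg hM, inv_mul_le_iff₀ hM0,
          mul_one]
        exact hgb x
      · have h1 : ∀ x, ‖(M : ℂ)⁻¹ * g (x + v) - (M : ℂ)⁻¹ * g x‖ₑ =
            ENNReal.ofReal M⁻¹ * ‖g (x + v) - g x‖ₑ := fun x => by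
          rw [← mul_sub, enorm_mul]
          congr 1
          rw [← ofReal_norm, norm_inv, Complex.norm_real, Real.norm_of_nonneg hM]
        simp_rw [h1]
        rw [lintegral_const_mul' _ _ ENNReal.ofReal_ne_top]
        refine (mul_le_mul_right (hgv v) _).trans ?_
        rw [← ENNReal.ofReal_mul (by positivity)]
        refine ENNReal.ofReal_le_ofReal (le_of_eq ?_)
        ring
    have h1 := hN (V / M) _ (by positivity) hcls
    have h2 : (ext (ball 0 (1 / 2)) (fun x => w x * g x)) =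
        (M : ℂ) • ext (ball 0 (1 / 2)) (fun x => w x * ((M : ℂ)⁻¹ * g x)) := by
      funext ξ
      rw [Pi.smul_apply, smul_eq_mul]
      unfold PP.ext
      rw [← integral_const_mul]
      refine integral_congr_ae (Filter.Eventually.of_forall fun x => ?_)
      simp only
      have : (M : ℂ) ≠ 0 := by exact_mod_cast hM0.ne'
      field_simp
    rw [h2, eLpNorm_const_smul]
    have h3 : ‖(M : ℂ)‖ₑ = ENNReal.ofReal M := by
      rw [← ofReal_norm, Complex.norm_real, Real.norm_of_nonneg hM]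
    rw [h3]
    refine (mul_le_mul_right h1 _).trans (le_of_eq ?_)
    rw [show ENNReal.ofReal M * (C * ENNReal.ofReal (1 + V / M)) =
      C * (ENNReal.ofReal M * ENNReal.ofReal (1 + V / M)) by ring,
      ← ENNReal.ofReal_mul hM]
    congr 2
    field_simp

/-- complex polynomials -/
noncomputable def cv (a b : Pol) (x : E 2) : ℂ := (ev a x : ℂ) + (ev b x : ℂ) * Complex.I

theorem cv_meas (a b : Pol) : Measurable (cv a b) := by
  have := tr_ev_cont a
  have := tr_ev_cont b
  unfold cv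
  fun_prop

theorem lint_scale {c : E 2} {r : ℝ} (hr : 0 < r) (h : E 2 → ℝ≥0∞) :
    ∫⁻ u : E 2, h (c + (2 * r) • u) = ENNReal.ofReal (((2 * r) ^ 2)⁻¹) * ∫⁻ x, h x := by
  rw [Dl2.lsm (2 * r) (by positivity) (fun x => h (c + x)), lintegral_add_left_eq_self]

/-- the bound for one disc, polynomial amplitudes -/
theorem pieceP (n : ℕ) (q : ℝ) (hq : 3 < q) :
    ∃ B : ℝ≥0, ∀ (c : E 2) (r : ℝ) (P a b : Pol), 0 < r → ball c r ⊆ ball 0 (1 / 2) →
      P.totalDegree ≤ n → a.totalDegree ≤ n → b.totalDegree ≤ n →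
      eLpNorm (ext (ball 0 (1 / 2)) ((ball c r).indicator fun x => ex (ev P x) * cv a b x))
          (ENNReal.ofReal q) volume ≤
        B * ENNReal.ofReal (r ^ ((2 * q - 6) / q)) *
          eLpNorm ((ball c r).indicator fun x => ex (ev P x) * cv a b x)
            (ENNReal.ofReal q) volume := by
  have hq0 : 0 < q := by linarith
  have hq0' : ENNReal.ofReal q ≠ 0 := by simpa using hq0
  have hqt : (ENNReal.ofReal q).toReal = q := ENNReal.toReal_ofReal hq0.le
  obtain ⟨C, hC⟩ := finA n q 1 hq (by linarith) one_pos le_rfl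
  obtain ⟨K, hK, hD⟩ := dl1 n q (by linarith)
  refine ⟨C * Real.toNNReal ((1 + K) * (2 ^ ((2 * q - 6) / q) * K ^ (1 / q))), ?_⟩
  intro c r P a b hr hb hP ha hb'
  obtain ⟨P', hP1, hP2⟩ := aff_exists P c r
  obtain ⟨a', ha1, ha2⟩ := aff_exists a c r
  obtain ⟨b', hb1, hb2⟩ := aff_exists b c r
  obtain ⟨M, hM, hMb, hMv, hMK⟩ := hD a' b' (ha1.trans ha) (hb1.trans hb')
  have hexm : Measurable fun x => ex (ev P x) := by
    have := tr_ev_cont P
    unfold ex
    fun_prop
  have hmem : ∀ u : E 2, (c + (2 * r) • u ∈ ball c r) ↔ u ∈ ball (0 : E 2) (1 / 2) := by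
    intro u
    rw [mem_ball_zero_iff, mem_ball, dist_eq_norm, add_sub_cancel_left, norm_smul,
      Real.norm_of_nonneg (by positivity)]
    constructor
    · intro h; nlinarith
    · intro h; nlinarith
  have hfi : Integrable ((ball c r).indicator fun x => ex (ev P x) * cv a b x) := by
    rw [integrable_indicator_iff measurableSet_ball]
    have hcont : Continuous fun x => ex (ev P x) * cv a b x := by
      have := tr_ev_cont P
      have := tr_ev_cont a
      have := tr_ev_cont b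
      unfold ex cv
      fun_prop
    exact (hcont.continuousOn.integrableOn_compact (isCompact_closedBall c r)).mono_set
      ball_subset_closedBall
  rw [scale hq0 hr hb hfi (fun x hx => indicator_of_notMem hx _)]
  have hF : (fun u => (ball c r).indicator (fun x => ex (ev P x) * cv a b x) (c + (2 * r) • u)) =
      fun u => ex (ev P' u) * (ball (0 : E 2) (1 / 2)).indicator (cv a' b') u := by
    funext u
    by_cases hu : u ∈ ball (0 : E 2) (1 / 2)
    · rw [indicator_of_mem ((hmem u).2 hu), indicator_of_mem hu, hP2]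
      simp only [cv, ha2, hb2]
    · rw [indicator_of_notMem (fun h => hu ((hmem u).1 h)), indicator_of_notMem hu, mul_zero]
  rw [hF]
  have h1 : eLpNorm (ext (ball 0 (1 / 2)) (fun u => ex (ev P' u) *
      (ball (0 : E 2) (1 / 2)).indicator (cv a' b') u)) (ENNReal.ofReal q) volume ≤
      C * ENNReal.ofReal (M + K * M) := by
    refine homog (s := 1) (fun u => ex (ev P' u)) C ?_ M (K * M) _ hM (by positivity)
      ((cv_meas a' b').indicator measurableSet_ball) ?_ ?_ ?_
    · intro V g hV hg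
      refine (hC P' V g (hP1.trans hP) hV hg).trans ?_
      gcongr
      refine Real.rpow_le_self_of_one_le (by linarith) ?_
      have : 0 < 1 / q := by positivity
      linarith
    · intro x hx
      rw [← mem_ball_zero_iff]
      by_contra h
      exact hx (indicator_of_notMem h _)
    · intro x
      by_cases hx : x ∈ ball (0 : E 2) (1 / 2)
      · rw [indicator_of_mem hx]
        exact hMb x (mem_ball_zero_iff.1 hx)
      · rw [indicator_of_notMem hx, norm_zero]
        exact hM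
    · intro v
      rw [Real.rpow_one]
      exact hMv v
  -- `M` and the norm
  have h2 : ENNReal.ofReal M ≤ ENNReal.ofReal (K ^ (1 / q) * (2 * r) ^ (-(2 / q))) *
      eLpNorm ((ball c r).indicator fun x => ex (ev P x) * cv a b x) (ENNReal.ofReal q) volume := by
    have e1 : ∫⁻ x in ball (0 : E 2) (1 / 2), ‖(ev a' x : ℂ) + (ev b' x : ℂ) * Complex.I‖ₑ ^ q =
        ENNReal.ofReal (((2 * r) ^ 2)⁻¹) *
          ∫⁻ x, ‖(ball c r).indicator (fun x => ex (ev P x) * cv a b x) x‖ₑ ^ q := by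
      rw [← lint_scale hr, ← lintegral_indicator measurableSet_ball]
      refine lintegral_congr fun u => ?_
      have h := congrFun hF u
      rw [h, enorm_mul]
      have : ‖ex (ev P' u)‖ₑ = 1 := by
        rw [← ofReal_norm, tr_ex_norm, ENNReal.ofReal_one]
      rw [this, one_mul]
      by_cases hu : u ∈ ball (0 : E 2) (1 / 2)
      · rw [indicator_of_mem hu, indicator_of_mem hu]
        rfl
      · rw [indicator_of_notMem hu, indicator_of_notMem hu, enorm_zero, ENNReal.zero_rpow_of_pos hq0]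
    rw [e1] at hMK
    have e2 := ENNReal.rpow_le_rpow hMK (show (0 : ℝ) ≤ 1 / q by positivity)
    rw [← ENNReal.rpow_mul, mul_one_div_cancel hq0.ne', ENNReal.rpow_one,
      ENNReal.mul_rpow_of_nonneg _ _ (by positivity), ENNReal.mul_rpow_of_nonneg _ _ (by positivity),
      ENNReal.ofReal_rpow_of_nonneg hK.le (by positivity),
      ENNReal.ofReal_rpow_of_nonneg (by positivity) (by positivity)] at e2
    rw [eLpNorm_eq_lintegral_rpow_enorm_toReal hq0' ENNReal.ofReal_ne_top, hqt]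
    refine e2.trans (le_of_eq ?_)
    rw [ENNReal.ofReal_mul (by positivity), ← mul_assoc]
    congr 3
    rw [← Real.rpow_natCast, ← Real.rpow_neg (by positivity), ← Real.rpow_mul (by positivity)]
    congr 1
    push_cast
    ring
  have h5 : (2 * r) ^ ((2 * q - 4) / q) * (2 * r) ^ (-(2 / q)) =
      2 ^ ((2 * q - 6) / q) * r ^ ((2 * q - 6) / q) := by
    rw [← Real.mul_rpow (by norm_num) hr.le, ← Real.rpow_add (by positivity)]
    congr 1
    field_simp
    ring
  calc _ ≤ ENNReal.ofReal ((2 * r) ^ ((2 * q - 4) / q)) *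
        (C * (ENNReal.ofReal (1 + K) * (ENNReal.ofReal (K ^ (1 / q) * (2 * r) ^ (-(2 / q))) *
          eLpNorm ((ball c r).indicator fun x => ex (ev P x) * cv a b x)
            (ENNReal.ofReal q) volume))) := by
        gcongr
        refine h1.trans ?_
        gcongr
        rw [show M + K * M = (1 + K) * M by ring, ENNReal.ofReal_mul (by positivity)]
        gcongr
    _ = C * ENNReal.ofReal ((1 + K) * K ^ (1 / q) *
          ((2 * r) ^ ((2 * q - 4) / q) * (2 * r) ^ (-(2 / q)))) *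
          eLpNorm ((ball c r).indicator fun x => ex (ev P x) * cv a b x)
            (ENNReal.ofReal q) volume := by
        rw [ENNReal.ofReal_mul (p := (1 + K) * K ^ (1 / q)) (by positivity),
          ENNReal.ofReal_mul (p := 1 + K) (by positivity),
          ENNReal.ofReal_mul (p := K ^ (1 / q)) (by positivity),
          ENNReal.ofReal_mul (p := (2 * r) ^ ((2 * q - 4) / q)) (by positivity)]
        ring
    _ = _ := by
        rw [h5, ENNReal.coe_mul, ← ENNReal.ofReal,
          show (1 + K) * K ^ (1 / q) * (2 ^ ((2 * q - 6) / q) * r ^ ((2 * q - 6) / q)) =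
            ((1 + K) * (2 ^ ((2 * q - 6) / q) * K ^ (1 / q))) * r ^ ((2 * q - 6) / q) by ring,
          ENNReal.ofReal_mul (by positivity)]
        ring

end Pool.Agent.J4.H87.PA
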