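import Pool.Agent.J4.H87.PA.Fin3
set_option autoImplicit false

/-! # Piecewise chirps on packings of discs -/

namespace Pool.Agent.J4.H87.PA

open MeasureTheory Set MvPolynomial Metric Filter
open scoped ENNReal NNReal RealInnerProductSpace Topology
open Pool.Agent.J4.H87.PP

/-- a family of disjoint discs in `U ⊆ B(0,1/2)`, at most `K ρ^(-β)` of them of radius `> ρ` -/
structure Pk (β K : ℝ) (U : Set (E 2)) (c : ℕ → E 2) (r : ℕ → ℝ) : Prop where
  m : MeasurableSet U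
  u : U ⊆ ball 0 (1 / 2)
  r0 : ∀ j, 0 ≤ r j
  b : ∀ j, ball (c j) (r j) ⊆ U
  d : Pairwise fun i j => Disjoint (ball (c i) (r i)) (ball (c j) (r j))
  n : ∀ ρ : ℝ, 0 < ρ → {j | ρ < r j}.Finite ∧ ({j | ρ < r j}.ncard : ℝ) ≤ K * ρ ^ (-β)

/-- a chirp with the phase of class `C^m` on the disc `B(c, r)` -/
def PcA (m : ℕ) (s : ℝ) (c : E 2) (r L M : ℝ) (f : E 2 → ℂ) : Prop :=
  1 ≤ L ∧ 0 ≤ M ∧ ∃ (ψ : E 2 → ℝ) (g : E 2 → ℂ), ContDiff ℝ m ψ ∧
    (∀ x, ‖x - c‖ ≤ 2 * r → ‖iteratedFDeriv ℝ m ψ x‖ ≤ L * r ^ (-(m : ℝ))) ∧ Measurable g ∧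
    (∀ x, x ∉ ball c r → g x = 0) ∧ (∀ x ∈ ball c r, f x = ex (ψ x) * g x) ∧
    (∀ x, ‖g x‖ ≤ M) ∧
    ∀ v : E 2, ∫⁻ x, ‖g (x + v) - g x‖ₑ ≤ ENNReal.ofReal (M * r ^ (2 - s) * ‖v‖ ^ s)

theorem vol_ball_le (c : E 2) {r : ℝ} (hr : 0 ≤ r) :
    volume (ball c r) ≤ ENNReal.ofReal (4 * r ^ 2) := by
  rw [EuclideanSpace.volume_ball_fin_two, ← ENNReal.ofReal_pow hr,
    ← ENNReal.ofReal_mul (by positivity)]
  refine ENNReal.ofReal_le_ofReal ?_
  have : Real.pi ≤ 4 := Real.pi_le_four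
  nlinarith [sq_nonneg r]

theorem partA (q β K : ℝ) (hq : 3 < q) (hβ : β * (q - 1) < 2 * q - 6) (hK : 0 ≤ K) (m : ℕ)
    (hm : 1 ≤ m) (s : ℝ) (hs : 2 < s * (q - 1)) (hs1 : s ≤ 1) :
    ∃ C : ℝ≥0, ∀ (U : Set (E 2)) (f : E 2 → ℂ) (c : ℕ → E 2) (r L M : ℕ → ℝ),
      Pk β K U c r → Measurable f →
      (∀ x, (∀ j, x ∉ ball (c j) (r j)) → f x = 0) →
      (∀ j, 0 < r j → PcA m s (c j) (r j) (L j) (M j) f) →
      eLpNorm (ext U f) (ENNReal.ofReal q) volume ≤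
        C * (∑' j, ENNReal.ofReal (r j ^ 2 * (L j ^ (2 / (m : ℝ)) * M j) ^ q)) ^ (1 / q) := by
  obtain ⟨B, hB⟩ := pieceA m hm q s hq hs hs1
  obtain ⟨C, hC⟩ := sumup q β K hq hβ hK B
  have hq0 : 0 < q := by linarith
  have hq0' : ENNReal.ofReal q ≠ 0 := by simpa using hq0
  have hqt : (ENNReal.ofReal q).toReal = q := ENNReal.toReal_ofReal hq0.le
  refine ⟨C + 1, ?_⟩
  intro U f c r L M hP hf h0 hfg
  rcases eq_or_ne (∑' j, ENNReal.ofReal (r j ^ 2 * (L j ^ (2 / (m : ℝ)) * M j) ^ q)) ∞ with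
    hinf | hfin
  · rw [hinf, ENNReal.top_rpow_of_pos (by positivity), ENNReal.mul_top (by simp)]
    exact le_top
  have hfU : ∀ x, x ∉ U → f x = 0 := fun x hx => h0 x fun j hj => hx (hP.b j hj)
  have hint : Integrable f := by
    refine int_of_fin (q := q) (by linarith) hP.u hf hfU ?_
    rw [eLpNorm_eq_lintegral_rpow_enorm_toReal hq0' ENNReal.ofReal_ne_top, hqt]
    refine ENNReal.rpow_ne_top_of_nonneg (by positivity) ?_
    refine ne_of_lt ((pieces_le (by linarith) hP.m h0 hP.d).trans_lt ?_)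
    have h1 : ∀ j, ∫⁻ x in ball (c j) (r j), ‖f x‖ₑ ^ q ≤
        4 * ENNReal.ofReal (r j ^ 2 * (L j ^ (2 / (m : ℝ)) * M j) ^ q) := by
      intro j
      rcases (hP.r0 j).eq_or_lt with hj | hj
      · rw [← hj, ball_zero]
        simp
      obtain ⟨hL1, hM0, ψ, g, -, -, -, -, h3, h4, -⟩ := hfg j hj
      have h2 : ∀ x ∈ ball (c j) (r j), ‖f x‖ₑ ^ q ≤ ENNReal.ofReal (M j) ^ q := by
        intro x hx
        refine ENNReal.rpow_le_rpow ?_ hq0.le
        rw [h3 x hx, ← ofReal_norm, norm_mul, tr_ex_norm, one_mul]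
        exact ENNReal.ofReal_le_ofReal (h4 x)
      refine (setLIntegral_mono measurable_const h2).trans ?_
      rw [setLIntegral_const]
      refine (mul_le_mul_right (vol_ball_le (c j) (hP.r0 j)) _).trans ?_
      rw [ENNReal.ofReal_rpow_of_nonneg hM0 hq0.le,
        show (4 : ℝ≥0∞) = ENNReal.ofReal 4 by norm_num, ← ENNReal.ofReal_mul
          (Real.rpow_nonneg hM0 _), ← ENNReal.ofReal_mul (by norm_num)]
      refine ENNReal.ofReal_le_ofReal ?_
      have h3 : M j ^ q ≤ (L j ^ (2 / (m : ℝ)) * M j) ^ q := by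
        refine Real.rpow_le_rpow hM0 ?_ hq0.le
        exact le_mul_of_one_le_left hM0 (Real.one_le_rpow hL1 (by positivity))
      nlinarith [sq_nonneg (r j)]
    refine (ENNReal.tsum_le_tsum h1).trans_lt ?_
    rw [ENNReal.tsum_mul_left]
    exact ENNReal.mul_lt_top (by simp) hfin.lt_top
  have key := hC U f c r (fun j => if 0 < r j then
      ENNReal.ofReal (r j ^ (2 / q) * (L j ^ (2 / (m : ℝ)) * M j)) else 0)
    hP.m hP.u hf hint hP.r0 hP.b hP.d h0 hP.n (fun j hj => by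
      obtain ⟨hL1, hM0, ψ, g, h1, h2, h3, h4, h5, h6, h7⟩ := hfg j hj
      have e1 : (ball (c j) (r j)).indicator f = fun x => ex (ψ x) * g x := by
        funext x
        by_cases hx : x ∈ ball (c j) (r j)
        · rw [indicator_of_mem hx, h5 x hx]
        · rw [indicator_of_notMem hx, h4 x hx, mul_zero]
      rw [e1, if_pos hj]
      exact hB (c j) (r j) (L j) (M j) ψ g hj ((hP.b j).trans hP.u) hL1 h1 h2 h3 h4 hM0 h6 h7)
  refine key.trans ?_
  have e2 : ∀ j, (if 0 < r j then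
      ENNReal.ofReal (r j ^ (2 / q) * (L j ^ (2 / (m : ℝ)) * M j)) else 0) ^ q ≤
      ENNReal.ofReal (r j ^ 2 * (L j ^ (2 / (m : ℝ)) * M j) ^ q) := by
    intro j
    split_ifs with hj
    · obtain ⟨hL1, hM0, -⟩ := hfg j hj
      have hL0 : 0 ≤ L j := zero_le_one.trans hL1
      rw [ENNReal.ofReal_rpow_of_nonneg (by positivity) hq0.le,
        Real.mul_rpow (by positivity) (by positivity), ← Real.rpow_mul hj.le,
        div_mul_cancel₀ _ hq0.ne']
      norm_cast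
    · rw [ENNReal.zero_rpow_of_pos hq0]
      exact zero_le
  refine mul_le_mul' ?_ (ENNReal.rpow_le_rpow (ENNReal.tsum_le_tsum e2) (by positivity))
  rw [ENNReal.coe_add]
  exact le_self_add

/-- a polynomial chirp on the disc `B(c, r)` -/
def PcP (n : ℕ) (c : E 2) (r : ℝ) (f : E 2 → ℂ) : Prop :=
  ∃ P a b : Pol, P.totalDegree ≤ n ∧ a.totalDegree ≤ n ∧ b.totalDegree ≤ n ∧
    ∀ x ∈ ball c r, f x = ex (ev P x) * cv a b x

theorem partB (q β K : ℝ) (hq : 3 < q) (hβ : β * (q - 1) < 2 * q - 6) (hK : 0 ≤ K) (n : ℕ) :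
    ∃ C : ℝ≥0, ∀ (U : Set (E 2)) (f : E 2 → ℂ) (c : ℕ → E 2) (r : ℕ → ℝ),
      Pk β K U c r → Measurable f →
      (∀ x, (∀ j, x ∉ ball (c j) (r j)) → f x = 0) →
      (∀ j, 0 < r j → PcP n (c j) (r j) f) →
      eLpNorm (ext U f) (ENNReal.ofReal q) volume ≤
        C * eLpNorm f (ENNReal.ofReal q) (volume.restrict U) := by
  obtain ⟨B, hB⟩ := pieceP n q hq
  obtain ⟨C, hC⟩ := sumup q β K hq hβ hK B
  have hq0 : 0 < q := by linarith
  refine ⟨C + 1, ?_⟩
  intro U f c r hP hf h0 hfg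
  rcases eq_or_ne (eLpNorm f (ENNReal.ofReal q) (volume.restrict U)) ∞ with hinf | hfin
  · rw [hinf, ENNReal.mul_top (by simp)]
    exact le_top
  have hfU : ∀ x, x ∉ U → f x = 0 := fun x hx => h0 x fun j hj => hx (hP.b j hj)
  have hint : Integrable f := int_of_fin (q := q) (by linarith) hP.u hf hfU hfin
  have key := hC U f c r (fun j => eLpNorm ((ball (c j) (r j)).indicator f) (ENNReal.ofReal q) volume)
    hP.m hP.u hf hint hP.r0 hP.b hP.d h0 hP.n (fun j hj => by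
      obtain ⟨P, a, b, h1, h2, h3, h4⟩ := hfg j hj
      have e1 : (ball (c j) (r j)).indicator f =
          (ball (c j) (r j)).indicator fun x => ex (ev P x) * cv a b x := by
        funext x
        by_cases hx : x ∈ ball (c j) (r j)
        · rw [indicator_of_mem hx, indicator_of_mem hx, h4 x hx]
        · rw [indicator_of_notMem hx, indicator_of_notMem hx]
      rw [e1]
      exact hB (c j) (r j) P a b hj ((hP.b j).trans hP.u) h1 h2 h3)
  refine key.trans ((mul_le_mul_right (pieces (by linarith) hP.b hP.d) _).trans ?_)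
  gcongr
  exact le_self_add

end Pool.Agent.J4.H87.PA
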